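import Mathlib

/-!
# Integral representations by isotropic quadratic forms: the core

`B` is a symmetric bilinear form on a group `M`, `2 B(u, u) = k ^ 2` is a square, and `g₁`, `g₂` are
orthogonal to `u` and to each other, with `B(g_i, g_i) ≠ 0`. If `2 B(v₀, v₀) - t` is a square modulo
all powers of `2 k`, then `2 B(v, v) - m ^ 2 = t` for some `v = v₀ + x u + y g₁ + z g₂` and `m`.
-/

set_option autoImplicit false

namespace Pool.Agent.Helper56K9.GS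

/-- the part of `w` prime to `n` -/
theorem coprime_part {w g n : ℤ} {J : ℕ} (hn : n ≠ 0) (hJ : g.natAbs < 2 ^ J) (hg : g ≠ 0)
    (hw : ∀ p : ℤ, Prime p → p ∣ n → p ^ J ∣ w → p ^ J ∣ g) :
    ∃ c w₁ : ℤ, 0 < c ∧ c ∣ n ^ J ∧ w = c * w₁ ∧ IsCoprime w₁ n := by
  have hnJ : n ^ J ≠ 0 := pow_ne_zero _ hn
  set c : ℤ := (Int.gcd w (n ^ J) : ℤ) with hc
  have hc0 : 0 < c := by
    have : Int.gcd w (n ^ J) ≠ 0 := fun h => hnJ (Int.eq_zero_of_gcd_eq_zero_right h)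
    have h2 : 0 < Int.gcd w (n ^ J) := Nat.pos_of_ne_zero this
    rw [hc]
    exact_mod_cast h2
  obtain ⟨w₁, hw₁⟩ : c ∣ w := Int.gcd_dvd_left w (n ^ J)
  obtain ⟨e, he⟩ : c ∣ n ^ J := Int.gcd_dvd_right w (n ^ J)
  refine ⟨c, w₁, hc0, ⟨e, he⟩, hw₁, ?_⟩
  rw [Int.isCoprime_iff_gcd_eq_one]
  by_contra hcon
  obtain ⟨p, hp, hpd⟩ := Nat.exists_prime_and_dvd hcon
  have hpZ : Prime (p : ℤ) := Nat.prime_iff_prime_int.1 hp
  have hp1 : (p : ℤ) ∣ w₁ := (Int.natCast_dvd_natCast.2 hpd).trans (Int.gcd_dvd_left _ _)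
  have hp2 : (p : ℤ) ∣ n := (Int.natCast_dvd_natCast.2 hpd).trans (Int.gcd_dvd_right _ _)
  have hpe : ¬ (p : ℤ) ∣ e := by
    intro h
    have h1 : (p : ℤ) * c ∣ w := by
      rw [hw₁, mul_comm]
      exact mul_dvd_mul_left c hp1
    have h2 : (p : ℤ) * c ∣ n ^ J := by
      rw [he, mul_comm]
      exact mul_dvd_mul_left c h
    have h3 : (p : ℤ) * c ∣ c := Int.dvd_coe_gcd h1 h2
    have h4 : (p : ℤ) ∣ 1 := by
      obtain ⟨r, hr⟩ := h3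
      refine ⟨r, ?_⟩
      apply mul_left_cancel₀ hc0.ne'
      rw [mul_one]
      calc c = (p : ℤ) * c * r := hr
        _ = c * (p * r) := by ring
    exact hpZ.not_isUnit (isUnit_of_dvd_one h4)
  have hpc : (p : ℤ) ^ J ∣ c := by
    have h1 : (p : ℤ) ^ J ∣ c * e := by
      rw [← he]
      exact pow_dvd_pow_of_dvd hp2 J
    have h2 : IsCoprime ((p : ℤ) ^ J) e := by
      apply IsCoprime.pow_left
      exact (Prime.coprime_iff_not_dvd hpZ).2 hpe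
    exact h2.dvd_of_dvd_mul_right h1
  have h5 : (p : ℤ) ^ J ∣ g := hw p hpZ hp2 (hpc.trans ⟨w₁, hw₁⟩)
  have h6 : ((p : ℤ) ^ J).natAbs ≤ g.natAbs :=
    Nat.le_of_dvd (Int.natAbs_pos.2 hg) (Int.natAbs_dvd_natAbs.2 h5)
  rw [Int.natAbs_pow, Int.natAbs_natCast] at h6
  have h7 : 2 ^ J ≤ p ^ J := Nat.pow_le_pow_left hp.two_le J
  omega

/-- two quadratic polynomials modulo a prime -/
theorem exists_mod {l : ℕ} (hl : l.Prime) (hl2 : l ≠ 2) {a b a' b' c : ℤ} (ha : ¬ (l : ℤ) ∣ a)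
    (ha' : ¬ (l : ℤ) ∣ a') :
    ∃ y z : ℤ, (l : ℤ) ∣ a * y ^ 2 + b * y + (a' * z ^ 2 + b' * z + c) := by
  have : Fact l.Prime := ⟨hl⟩
  have : NeZero l := ⟨hl.ne_zero⟩
  have ha0 : (a : ZMod l) ≠ 0 := by
    rw [Ne, ZMod.intCast_zmod_eq_zero_iff_dvd]
    exact ha
  have ha0' : (a' : ZMod l) ≠ 0 := by
    rw [Ne, ZMod.intCast_zmod_eq_zero_iff_dvd]
    exact ha'
  obtain ⟨y, z, h⟩ := FiniteField.exists_root_sum_quadratic (R := ZMod l)
    (f := Polynomial.C (a : ZMod l) * Polynomial.X ^ 2 + Polynomial.C (b : ZMod l) * Polynomial.X +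
      Polynomial.C 0)
    (g := Polynomial.C (a' : ZMod l) * Polynomial.X ^ 2 +
      Polynomial.C (b' : ZMod l) * Polynomial.X + Polynomial.C (c : ZMod l))
    (Polynomial.degree_quadratic ha0) (Polynomial.degree_quadratic ha0') (by
      rw [ZMod.card]
      exact Nat.odd_iff.1 (hl.odd_of_ne_two hl2))
  refine ⟨(y.val : ℤ), (z.val : ℤ), ?_⟩
  rw [← ZMod.intCast_zmod_eq_zero_iff_dvd]
  push_cast
  rw [ZMod.natCast_zmod_val, ZMod.natCast_zmod_val]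
  simp only [Polynomial.eval_add, Polynomial.eval_mul, Polynomial.eval_C, Polynomial.eval_pow,
    Polynomial.eval_X] at h
  linear_combination h

/-- **The core.** -/
theorem core {M : Type*} [AddCommGroup M] (B : LinearMap.BilinForm ℤ M)
    (hs : ∀ x y, B x y = B y x) {u g₁ g₂ v₀ : M} {k t : ℤ} (hk : k ≠ 0)
    (hu : 2 * B u u = k ^ 2) (h1 : B u g₁ = 0) (h2 : B u g₂ = 0) (h12 : B g₁ g₂ = 0)
    (hg1 : B g₁ g₁ ≠ 0) (hg2 : B g₂ g₂ ≠ 0)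
    (hloc : ∀ J : ℕ, ∃ m : ℤ, (2 * k) ^ J ∣ 2 * B v₀ v₀ - t - m ^ 2) :
    ∃ x y z m : ℤ, 2 * B (v₀ + x • u + y • g₁ + z • g₂) (v₀ + x • u + y • g₁ + z • g₂) - m ^ 2 =
      t := by
  have hexp : ∀ x y z : ℤ,
      2 * B (v₀ + x • u + y • g₁ + z • g₂) (v₀ + x • u + y • g₁ + z • g₂) =
        2 * B v₀ v₀ + 4 * x * B u v₀ + 4 * y * B g₁ v₀ + 4 * z * B g₂ v₀ + k ^ 2 * x ^ 2 +
          2 * B g₁ g₁ * y ^ 2 + 2 * B g₂ g₂ * z ^ 2 := by
    intro x y z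
    simp only [map_add, LinearMap.add_apply, map_zsmul, LinearMap.smul_apply, smul_eq_mul]
    rw [hs g₁ u, hs g₂ u, hs g₂ g₁, hs v₀ u, hs v₀ g₁, hs v₀ g₂, h1, h2, h12, ← hu]
    ring
  set β := B u v₀ with hβ
  set γ₁ := B g₁ v₀ with hγ₁
  set γ₂ := B g₂ v₀ with hγ₂
  set b₀ := B v₀ v₀ with hb₀
  set G₁ := B g₁ g₁ with hG₁
  set G₂ := B g₂ g₂ with hG₂
  set g : ℤ := k ^ 2 * t + 4 * β ^ 2 - 2 * k ^ 2 * b₀ with hg
  have hk2 : k ^ 2 ≠ 0 := pow_ne_zero 2 hk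
  by_cases hg0 : g = 0
  · -- an exact solution
    have h3 : (2 * β) ^ 2 = k ^ 2 * (2 * b₀ - t) := by
      rw [hg] at hg0
      linear_combination hg0
    obtain ⟨m, hm⟩ : k ∣ 2 * β := (Int.pow_dvd_pow_iff two_ne_zero).1 ⟨_, h3⟩
    refine ⟨0, 0, 0, m, ?_⟩
    rw [hexp]
    apply mul_left_cancel₀ hk2
    rw [hm] at h3
    linear_combination -h3
  -- local solution
  obtain ⟨m₀, j, hj⟩ := hloc (g.natAbs + 1 + 1)
  set J := g.natAbs + 1 with hJ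
  set w₀ := 2 * β + k * m₀ with hw₀
  set s₀ := 2 * β - k * m₀ with hs₀
  have hsw : s₀ * w₀ = g + k ^ 2 * ((2 * k) ^ (J + 1) * j) := by
    rw [← hj, hg, hw₀, hs₀]
    ring
  have h2k : (2 * k : ℤ) ≠ 0 := mul_ne_zero two_ne_zero hk
  obtain ⟨c, w₁, hc0, ⟨e, he⟩, hw₁, hcop⟩ := coprime_part (w := w₀) (g := g) (n := 2 * k) (J := J)
    h2k (by
      have h3 : g.natAbs < 2 ^ g.natAbs := Nat.lt_two_pow_self
      have h4 : 2 ^ g.natAbs ≤ 2 ^ J := Nat.pow_le_pow_right two_pos (by omega)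
      omega) hg0 (by
      intro p hp hpn hpw
      have h3 : g = s₀ * w₀ - k ^ 2 * ((2 * k) ^ (J + 1) * j) := by
        rw [hsw]
        ring
      rw [h3]
      refine dvd_sub (hpw.mul_left _) ?_
      refine Dvd.dvd.mul_left (Dvd.dvd.mul_right ?_ _) _
      exact (pow_dvd_pow_of_dvd hpn J).trans (pow_dvd_pow _ (Nat.le_succ J)))
  -- the prime
  have hcop2 : IsCoprime w₁ (2 * k ^ 2 * c) := by
    refine IsCoprime.mul_right ?_ ?_
    · have h3 : IsCoprime w₁ ((2 * k) ^ 2) := hcop.pow_right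
      exact h3.of_isCoprime_of_dvd_right ⟨2, by ring⟩
    · have h3 : IsCoprime w₁ ((2 * k) ^ J) := hcop.pow_right
      exact h3.of_isCoprime_of_dvd_right ⟨e, he⟩
  have hN0 : 2 * k ^ 2 * c ≠ 0 := mul_ne_zero (mul_ne_zero two_ne_zero hk2) hc0.ne'
  have : NeZero (2 * k ^ 2 * c).natAbs := ⟨Int.natAbs_ne_zero.2 hN0⟩
  have hunit : IsUnit ((w₁ : ℤ) : ZMod (2 * k ^ 2 * c).natAbs) := by
    obtain ⟨a, b, hab⟩ := hcop2
    refine IsUnit.of_mul_eq_one ((a : ℤ) : ZMod _) ?_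
    have h3 : ((b * (2 * k ^ 2 * c) : ℤ) : ZMod (2 * k ^ 2 * c).natAbs) = 0 := by
      rw [ZMod.intCast_zmod_eq_zero_iff_dvd]
      exact Int.natAbs_dvd.2 (dvd_mul_left _ _)
    have h4 := congrArg (fun r : ℤ => (r : ZMod (2 * k ^ 2 * c).natAbs)) hab
    simp only [Int.cast_add, Int.cast_one] at h4
    rw [h3, add_zero, Int.cast_mul] at h4
    exact (mul_comm _ _).trans h4
  set Y := 2 * k ^ 2 * c with hY
  obtain ⟨l, hlb, hl, hlm⟩ := Nat.forall_exists_prime_gt_and_eq_mod hunit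
    (2 * (k ^ 2 * 2 * G₁ * Y ^ 2 * G₂ * c).natAbs + 2)
  have hGG : k ^ 2 * 2 * G₁ * Y ^ 2 * G₂ * c ≠ 0 := by
    refine mul_ne_zero (mul_ne_zero (mul_ne_zero (mul_ne_zero (mul_ne_zero hk2 two_ne_zero) hg1)
      (pow_ne_zero 2 hN0)) hg2) hc0.ne'
  have hlnd : ¬ (l : ℤ) ∣ k ^ 2 * 2 * G₁ * Y ^ 2 * G₂ * c := by
    intro h
    have h3 := Int.natAbs_dvd_natAbs.2 h
    rw [Int.natAbs_natCast] at h3
    have h4 := Nat.le_of_dvd (Int.natAbs_pos.2 hGG) h3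
    omega
  obtain ⟨y, z, hyz⟩ := exists_mod (l := l) hl (by omega) (a := -(k ^ 2 * 2 * G₁ * Y ^ 2))
    (b := -(k ^ 2 * (4 * γ₁ * Y))) (a' := -(k ^ 2 * 2 * G₂ * Y ^ 2))
    (b' := -(k ^ 2 * (4 * γ₂ * Y))) (c := g) (by
      rw [dvd_neg]
      intro h
      exact hlnd ((h.mul_right (G₂ * c)).trans (by rw [← mul_assoc])))
      (by
      rw [dvd_neg]
      intro h
      refine hlnd ((h.mul_right (G₁ * c)).trans (by
        refine dvd_of_eq ?_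
        ring)))
  set E := -(k ^ 2 * 2 * G₁ * Y ^ 2) * y ^ 2 + -(k ^ 2 * (4 * γ₁ * Y)) * y +
    (-(k ^ 2 * 2 * G₂ * Y ^ 2) * z ^ 2 + -(k ^ 2 * (4 * γ₂ * Y)) * z + g) with hE
  -- divisibility of `E` by `c`
  obtain ⟨j', hj'⟩ : ∃ j', E = c * (s₀ * w₁ + 2 * k ^ 2 * j') := by
    refine ⟨-(k ^ 2 * 2 * G₁ * Y) * y ^ 2 - (4 * γ₁ * k ^ 2) * y -
      (k ^ 2 * 2 * G₂ * Y) * z ^ 2 - (4 * γ₂ * k ^ 2) * z - k * e * j, ?_⟩
    have h3 : g = s₀ * (c * w₁) - k ^ 2 * (2 * k * (c * e) * j) := by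
      rw [← hw₁, ← he, hsw]
      ring
    rw [hE, h3, hY]
    ring
  obtain ⟨s, hsE⟩ : (l : ℤ) ∣ s₀ * w₁ + 2 * k ^ 2 * j' := by
    rw [hj'] at hyz
    have hlZ : Prime (l : ℤ) := Nat.prime_iff_prime_int.1 hl
    refine (hlZ.dvd_or_dvd hyz).resolve_left fun h => hlnd (h.mul_left _)
  obtain ⟨r, hr⟩ : Y ∣ (l : ℤ) - w₁ := by
    have h3 : ((w₁ : ℤ) : ZMod Y.natAbs) = ((l : ℤ) : ZMod Y.natAbs) := by
      rw [← hlm]
      push_cast
      rfl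
    rw [ZMod.intCast_eq_intCast_iff_dvd_sub] at h3
    exact Int.natAbs_dvd.1 h3
  -- `s = s₀` modulo `2 k ^ 2`
  obtain ⟨b, hb⟩ : 2 * k ^ 2 ∣ s - s₀ := by
    have h3 : IsCoprime (2 * k ^ 2) w₁ :=
      (hcop2.of_isCoprime_of_dvd_right ⟨c, rfl⟩).symm
    refine h3.dvd_of_dvd_mul_right (z := w₁) (y := s - s₀) ?_
    refine ⟨j' - c * r * s, ?_⟩
    have h4 : (l : ℤ) = w₁ + 2 * k ^ 2 * c * r := by
      rw [hY] at hr
      linear_combination hr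
    rw [h4] at hsE
    linear_combination -hsE
  refine ⟨c * c * r + b, Y * y, Y * z, m₀ + k * (c * c * r - b), ?_⟩
  rw [hexp]
  apply mul_left_cancel₀ hk2
  have h4 : (l : ℤ) = w₁ + 2 * k ^ 2 * c * r := by
    rw [hY] at hr
    linear_combination hr
  have h5 : s = s₀ + 2 * k ^ 2 * b := by linear_combination hb
  have h6 : E = s * (c * l) := by
    rw [hj', hsE]
    ring
  have h7 : s + c * l = 4 * β + 2 * (k ^ 2 * (c * c * r + b)) := by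
    rw [h5, h4, hs₀]
    have h8 : c * w₁ = 2 * β + k * m₀ := by rw [← hw₁]
    linear_combination h8
  have h8 : c * l - s = 2 * (k * (m₀ + k * (c * c * r - b))) := by
    rw [h5, h4, hs₀]
    have h8 : c * w₁ = 2 * β + k * m₀ := by rw [← hw₁]
    linear_combination h8
  set x := c * c * r + b with hx
  set m := m₀ + k * (c * c * r - b) with hm
  have h9 : 4 * (s * (c * l)) = (4 * β + 2 * (k ^ 2 * x)) ^ 2 - (2 * (k * m)) ^ 2 := by
    rw [← h7, ← h8]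
    ring
  rw [← h6, hE, hg] at h9
  have h10 : (4 : ℤ) ≠ 0 := by norm_num
  apply mul_left_cancel₀ h10
  linear_combination -h9
end Pool.Agent.Helper56K9.GS
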