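import Mathlib

/-!
# Prime numbers in a residue class for which a given number is a square
-/

set_option autoImplicit false

namespace Pool.Agent.Helper56K9.GS

open NumberTheorySymbols

/-- the Jacobi symbol and a square root -/
theorem exists_root_of_jacobi {l : ℕ} (hl : l.Prime) {D : ℤ} (h : J(D | l) = 1) :
    ∃ r : ℤ, (l : ℤ) ∣ D - r ^ 2 := by
  have : Fact l.Prime := ⟨hl⟩
  obtain ⟨r, hr⟩ := ZMod.isSquare_of_jacobiSym_eq_one h
  refine ⟨(r.val : ℤ), ?_⟩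
  rw [← ZMod.intCast_zmod_eq_zero_iff_dvd]
  push_cast
  rw [ZMod.natCast_zmod_val, hr]
  ring

/-- a number which changes the symbol -/
theorem exists_class {p : ℕ} (hp : p.Prime) (hp2 : p ≠ 2) : ∃ n : ℕ, J(n | p) = -1 := by
  have : Fact p.Prime := ⟨hp⟩
  obtain ⟨a, ha⟩ := FiniteField.exists_nonsquare (F := ZMod p) (by
    rw [ZMod.ringChar_zmod_n]
    exact hp2)
  refine ⟨a.val, ?_⟩
  refine ZMod.nonsquare_iff_jacobiSym_eq_neg_one (p := p).2 ?_
  push_cast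
  rw [ZMod.natCast_zmod_val]
  exact ha

/-- **A prime number in a residue class, for which `D` is a square.** -/
theorem exists_prime_sq {D : ℤ} (hD : D ≠ 0) {Y w : ℤ} (hY : Y ≠ 0) (hcop : IsCoprime w Y)
    (h : IsSquare D ∨ ∃ (p i : ℕ) (D' : ℤ), p.Prime ∧ p ≠ 2 ∧ ¬ (p : ℤ) ∣ Y ∧ ¬ (p : ℤ) ∣ D' ∧
      D = (p : ℤ) ^ (2 * i + 1) * D') (N : ℕ) :
    ∃ l : ℕ, N < l ∧ l.Prime ∧ Y ∣ (l : ℤ) - w ∧ ∃ r : ℤ, (l : ℤ) ∣ D - r ^ 2 := by
  have hY' : Y.natAbs ≠ 0 := Int.natAbs_ne_zero.2 hY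
  have hcop' : IsCoprime w (Y.natAbs : ℤ) := by
    rw [Int.natCast_natAbs]
    exact (IsCoprime.abs_right_iff w Y).2 hcop
  rcases h with ⟨r, hr⟩ | ⟨p, i, D', hp, hp2, hpY, hpD, hDD⟩
  · obtain ⟨l, hlN, hl, hlw⟩ := Nat.forall_exists_prime_gt_and_zmodEq N hY' hcop'
    refine ⟨l, hlN, hl, ?_, r, ⟨0, by rw [hr]; ring⟩⟩
    exact Int.natAbs_dvd.1 (Int.modEq_iff_dvd.1 hlw.symm)
  -- the first prime
  have hD' : D' ≠ 0 := fun h => hpD (h ▸ dvd_zero _)
  obtain ⟨q, hqN, hq, hqw⟩ := Nat.forall_exists_prime_gt_and_zmodEq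
    (N + 8 * (Y.natAbs * D.natAbs) + p) hY' hcop'
  have hYD : 0 < Y.natAbs * D.natAbs := Nat.mul_pos (Int.natAbs_pos.2 hY) (Int.natAbs_pos.2 hD)
  have hqY : Y ∣ (q : ℤ) - w := Int.natAbs_dvd.1 (Int.modEq_iff_dvd.1 hqw.symm)
  have hq2 : q ≠ 2 := by omega
  have hqodd : Odd q := hq.odd_of_ne_two hq2
  have hpodd : Odd p := hp.odd_of_ne_two hp2
  have : Fact q.Prime := ⟨hq⟩
  have : NeZero q := ⟨hq.ne_zero⟩
  rcases jacobiSym.trichotomy D q with h0 | h1 | h1
  · exfalso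
    rw [jacobiSym.eq_zero_iff_not_coprime] at h0
    have h3 : (q : ℤ) ∣ D := by
      by_contra hnd
      apply h0
      rw [Int.gcd_comm]
      exact Int.isCoprime_iff_gcd_eq_one.1
        ((Prime.coprime_iff_not_dvd (Nat.prime_iff_prime_int.1 hq)).2 hnd)
    have h4 := Nat.le_of_dvd (Int.natAbs_pos.2 hD) (Int.natCast_dvd.1 h3)
    have h5 : D.natAbs ≤ Y.natAbs * D.natAbs :=
      Nat.le_mul_of_pos_left _ (Int.natAbs_pos.2 hY)
    omega
  · exact ⟨q, by omega, hq, hqY, exists_root_of_jacobi hq h1⟩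
  -- the second prime
  set m : ℕ := 8 * (D'.natAbs * Y.natAbs) with hm
  have hpm : Nat.Coprime m p := by
    rw [Nat.coprime_comm, Nat.Prime.coprime_iff_not_dvd hp]
    intro h
    rw [hm] at h
    rcases (Nat.Prime.dvd_mul hp).1 h with h | h
    · have h8 : p ∣ 2 ^ 3 := by simpa using h
      exact hp2 ((Nat.prime_dvd_prime_iff_eq hp Nat.prime_two).1 (hp.dvd_of_dvd_pow h8))
    · rcases (Nat.Prime.dvd_mul hp).1 h with h | h
      · exact hpD (Int.natCast_dvd.2 h)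
      · exact hpY (Int.natCast_dvd.2 h)
  obtain ⟨n, hn⟩ := exists_class hp hp2
  obtain ⟨c, hc1, hc2⟩ := Nat.chineseRemainder hpm q (n * q)
  have hm0 : 0 < m := by
    rw [hm]
    have := Nat.mul_pos (Int.natAbs_pos.2 hD') (Int.natAbs_pos.2 hY)
    omega
  have hDD' : D'.natAbs ≤ D.natAbs := by
    refine Nat.le_of_dvd (Int.natAbs_pos.2 hD) (Int.natAbs_dvd_natAbs.2 ⟨(p : ℤ) ^ (2 * i + 1), ?_⟩)
    rw [hDD]
    ring
  have hmq : m < q := by
    rw [hm]
    have : D'.natAbs * Y.natAbs ≤ Y.natAbs * D.natAbs := by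
      rw [mul_comm]
      exact Nat.mul_le_mul_left _ hDD'
    omega
  have hcm : Nat.Coprime c m := by
    have h3 : Nat.Coprime q m := by
      rw [Nat.Prime.coprime_iff_not_dvd hq]
      intro h
      have := Nat.le_of_dvd hm0 h
      omega
    unfold Nat.Coprime at h3 ⊢
    rw [← h3]
    exact hc1.gcd_eq
  have hJq : J((n * q : ℕ) | p) = -J(q | p) := by
    push_cast
    rw [jacobiSym.mul_left, hn]
    ring
  have hcp : Nat.Coprime c p := by
    have : NeZero p := ⟨hp.ne_zero⟩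
    have h3 : J((n * q : ℕ) | p) ≠ 0 := by
      rw [hJq]
      intro h4
      have h5 : J(q | p) = 0 := by omega
      rw [jacobiSym.eq_zero_iff_not_coprime] at h5
      apply h5
      rw [Int.gcd_natCast_natCast]
      exact (Nat.coprime_primes hq hp).2 (by omega)
    have h4 : Nat.Coprime (n * q) p := by
      by_contra h5
      apply h3
      rw [jacobiSym.eq_zero_iff_not_coprime, Int.gcd_natCast_natCast]
      exact h5
    unfold Nat.Coprime at h4 ⊢
    rw [← h4]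
    exact hc2.gcd_eq
  obtain ⟨l, hlN, hl, hlc⟩ := Nat.forall_exists_prime_gt_and_modEq
    (N + 8 * (Y.natAbs * D.natAbs) + p) (mul_ne_zero hm0.ne' hp.ne_zero) (hcm.mul_right hcp)
  have hl1 : l ≡ q [MOD m] := (hlc.of_mul_right p).trans hc1
  have hl2 : l ≡ n * q [MOD p] := (hlc.of_mul_left m).trans hc2
  have hlodd : Odd l := hl.odd_of_ne_two (by omega)
  have hYl : Y ∣ (l : ℤ) - w := by
    have h3 : (m : ℤ) ∣ (q : ℤ) - l := (Nat.modEq_iff_dvd.1 hl1)
    have h4 : Y ∣ (m : ℤ) := by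
      rw [hm]
      push_cast
      refine Dvd.dvd.mul_left (Dvd.dvd.mul_left ?_ _) _
      exact (dvd_abs _ _).2 dvd_rfl
    have h5 := dvd_sub hqY (h4.trans h3)
    have h6 : (q : ℤ) - w - ((q : ℤ) - l) = l - w := by ring
    rwa [h6] at h5
  refine ⟨l, by omega, hl, hYl, exists_root_of_jacobi hl ?_⟩
  have e1 : J(D' | l) = J(D' | q) := by
    rw [jacobiSym.mod_right D' hlodd, jacobiSym.mod_right D' hqodd]
    congr 1
    have h3 : l ≡ q [MOD 4 * D'.natAbs] := by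
      refine hl1.of_dvd ⟨2 * Y.natAbs, ?_⟩
      rw [hm]
      ring
    exact h3
  have e2 : J(p | l) = -J(p | q) := by
    rw [jacobiSym.quadratic_reciprocity hpodd hlodd, jacobiSym.quadratic_reciprocity hpodd hqodd]
    have h3 : J(l | p) = -J(q | p) := by
      rw [← hJq]
      refine jacobiSym.mod_left' ?_
      exact_mod_cast hl2
    rw [h3]
    have h4 : l ≡ q [MOD 4] := hl1.of_dvd ⟨2 * (D'.natAbs * Y.natAbs), by rw [hm]; ring⟩
    have h5 : l % 4 = q % 4 := h4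
    have h6 : (-1 : ℤ) ^ (p / 2 * (l / 2)) = (-1) ^ (p / 2 * (q / 2)) := by
      rw [mul_comm, pow_mul, mul_comm (p / 2), pow_mul]
      congr 1
      rcases Nat.even_or_odd (l / 2) with h7 | h7
      · have h8 : Even (q / 2) := by
          rw [Nat.even_iff] at h7 ⊢
          omega
        rw [h7.neg_one_pow, h8.neg_one_pow]
      · have h8 : Odd (q / 2) := by
          rw [Nat.odd_iff] at h7 ⊢
          omega
        rw [h7.neg_one_pow, h8.neg_one_pow]
    rw [h6]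
    ring
  have e3 : ∀ x : ℕ, J(D | x) = J(p | x) ^ (2 * i + 1) * J(D' | x) := by
    intro x
    rw [hDD, jacobiSym.mul_left, jacobiSym.pow_left]
  rw [e3, e1, e2]
  rw [e3] at h1
  have h7 : (-J(p | q)) ^ (2 * i + 1) = -J(p | q) ^ (2 * i + 1) := Odd.neg_pow ⟨i, rfl⟩ _
  rw [h7, neg_mul, h1]
  norm_num

end Pool.Agent.Helper56K9.GS
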