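import Pool.Agent.Helper56K9.GS.Recip

/-!
# Prime numbers in one of two residue classes for which a given number is a square
-/

set_option autoImplicit false

namespace Pool.Agent.Helper56K9.GS

open NumberTheorySymbols

/-- **A prime number `l` with `l = w` or `3 l = w` modulo `Y`, for which `e` is a square, if `e = 2`
modulo `3`.** -/
theorem exists_prime_three {e : ℤ} (he : e % 3 = 2) {Y w : ℤ} (hY : Y ≠ 0) (hY3 : ¬ 3 ∣ Y)
    (hcop : IsCoprime w Y) (N : ℕ) :
    ∃ l : ℕ, N < l ∧ l.Prime ∧ (Y ∣ (l : ℤ) - w ∨ Y ∣ 3 * (l : ℤ) - w) ∧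
      ∃ r : ℤ, (l : ℤ) ∣ e - r ^ 2 := by
  have he0 : e ≠ 0 := by
    rintro rfl
    omega
  have hY' : Y.natAbs ≠ 0 := Int.natAbs_ne_zero.2 hY
  have hcop' : IsCoprime w (Y.natAbs : ℤ) := by
    rw [Int.natCast_natAbs]
    exact (IsCoprime.abs_right_iff w Y).2 hcop
  have hYD : 0 < Y.natAbs * e.natAbs := Nat.mul_pos (Int.natAbs_pos.2 hY) (Int.natAbs_pos.2 he0)
  obtain ⟨q, hqN, hq, hqw⟩ := Nat.forall_exists_prime_gt_and_zmodEq
    (N + 8 * (Y.natAbs * e.natAbs) + 3) hY' hcop'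
  have hqY : Y ∣ (q : ℤ) - w := Int.natAbs_dvd.1 (Int.modEq_iff_dvd.1 hqw.symm)
  have hqodd : Odd q := hq.odd_of_ne_two (by omega)
  have hlarge : ∀ l : ℕ, l.Prime → N + 8 * (Y.natAbs * e.natAbs) + 3 < l → J(e | l) ≠ 0 := by
    intro l hl hlN h0
    have : NeZero l := ⟨hl.ne_zero⟩
    rw [jacobiSym.eq_zero_iff_not_coprime] at h0
    have h3 : (l : ℤ) ∣ e := by
      by_contra hnd
      apply h0
      rw [Int.gcd_comm]
      exact Int.isCoprime_iff_gcd_eq_one.1
        ((Prime.coprime_iff_not_dvd (Nat.prime_iff_prime_int.1 hl)).2 hnd)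
    have h4 := Nat.le_of_dvd (Int.natAbs_pos.2 he0) (Int.natCast_dvd.1 h3)
    have h5 : e.natAbs ≤ Y.natAbs * e.natAbs := Nat.le_mul_of_pos_left _ (Int.natAbs_pos.2 hY)
    omega
  rcases jacobiSym.trichotomy e q with h0 | h1 | h1
  · exact absurd h0 (hlarge q hq hqN)
  · exact ⟨q, by omega, hq, Or.inl hqY, exists_root_of_jacobi hq h1⟩
  -- a prime number `l` with `3 l = q`
  set m : ℕ := 8 * (Y.natAbs * e.natAbs) with hm
  have hm0 : 0 < m := by omega
  have h3m : Nat.Coprime 3 m := by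
    rw [Nat.Prime.coprime_iff_not_dvd Nat.prime_three]
    intro h
    rw [hm] at h
    rcases (Nat.Prime.dvd_mul Nat.prime_three).1 h with h | h
    · omega
    · rcases (Nat.Prime.dvd_mul Nat.prime_three).1 h with h | h
      · exact hY3 (Int.natCast_dvd.2 h)
      · have : (3 : ℤ) ∣ e := Int.natCast_dvd.2 h
        omega
  have hqm : Nat.Coprime q m := by
    rw [Nat.Prime.coprime_iff_not_dvd hq]
    intro h
    have := Nat.le_of_dvd hm0 h
    omega
  have h3Z : IsCoprime (3 : ℤ) (m : ℤ) := by exact_mod_cast Nat.isCoprime_iff_coprime.2 h3m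
  have hqZ : IsCoprime (q : ℤ) (m : ℤ) := Nat.isCoprime_iff_coprime.2 hqm
  obtain ⟨a, b, hab⟩ := h3Z
  have haq : IsCoprime (a * q) (m : ℤ) := by
    refine IsCoprime.mul_left ⟨3, b, by linear_combination hab⟩ hqZ
  obtain ⟨l, hlN, hl, hlw⟩ := Nat.forall_exists_prime_gt_and_zmodEq
    (N + m + 3) hm0.ne' haq
  have hlm : (m : ℤ) ∣ 3 * (l : ℤ) - q := by
    have h4 : (m : ℤ) ∣ (l : ℤ) - a * q := Int.modEq_iff_dvd.1 hlw.symm
    have h5 : 3 * (l : ℤ) - q = 3 * ((l : ℤ) - a * q) - (m : ℤ) * (b * q) := by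
      linear_combination (q : ℤ) * hab
    rw [h5]
    exact dvd_sub (h4.mul_left _) (dvd_mul_right _ _)
  have hmod : 3 * l ≡ q [MOD m] := by
    have := Int.modEq_iff_dvd.2 hlm
    exact_mod_cast this.symm
  have hlodd : Odd l := hl.odd_of_ne_two (by omega)
  have h3lodd : Odd (3 * l) := (by decide : Odd 3).mul hlodd
  refine ⟨l, by omega, hl, Or.inr ?_, exists_root_of_jacobi hl ?_⟩
  · have h4 : Y ∣ (m : ℤ) := by
      rw [hm]
      push_cast
      refine Dvd.dvd.mul_left (Dvd.dvd.mul_right ?_ _) _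
      exact (dvd_abs _ _).2 dvd_rfl
    have h5 := dvd_add (h4.trans hlm) hqY
    have h6 : 3 * (l : ℤ) - q + ((q : ℤ) - w) = 3 * l - w := by ring
    rwa [h6] at h5
  · have e1 : J(e | 3 * l) = J(e | q) := by
      rw [jacobiSym.mod_right e h3lodd, jacobiSym.mod_right e hqodd]
      congr 1
      have h3 : 3 * l ≡ q [MOD 4 * e.natAbs] := by
        refine hmod.of_dvd ⟨2 * Y.natAbs, ?_⟩
        rw [hm]
        ring
      exact h3
    have : NeZero l := ⟨hl.ne_zero⟩
    have e2 : J(e | 3 * l) = J(e | 3) * J(e | l) := jacobiSym.mul_right e 3 l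
    have e3 : J(e | 3) = -1 := by
      rw [jacobiSym.mod_left]
      have : e % ((3 : ℕ) : ℤ) = 2 := by exact_mod_cast he
      rw [this]
      norm_num
    rw [e2, e3, h1] at e1
    omega

end Pool.Agent.Helper56K9.GS
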