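import Pool.Agent.Helper56K9.GS.Core
import Pool.Agent.Helper56K9.GS.Recip3

/-!
# Integral representations by isotropic ternary quadratic forms, with the help of the prime number three
-/

set_option autoImplicit false

namespace Pool.Agent.Helper56K9.GS

/-- **The core, in rank three, with the help of the prime number three.** -/
theorem core3 {M : Type*} [AddCommGroup M] (B : LinearMap.BilinForm ℤ M)
    (hs : ∀ x y, B x y = B y x) {u g₁ v₀ : M} {k t : ℤ} (hk : k ≠ 0) (ht : t ≠ 0)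
    (hu : 2 * B u u = k ^ 2) (h1 : B u g₁ = 0) (hg1 : B g₁ g₁ ≠ 0)
    (hdep : k ^ 2 * B g₁ g₁ * B v₀ v₀ = 2 * B g₁ g₁ * B u v₀ ^ 2 + k ^ 2 * B g₁ v₀ ^ 2)
    (hloc : ∀ J : ℕ, ∃ m : ℤ, (2 * k) ^ J ∣ 2 * B v₀ v₀ - t - m ^ 2)
    (h3k : ¬ (3 : ℤ) ∣ k) (h3G : (3 : ℤ) ∣ B g₁ g₁) (h3γ : (3 : ℤ) ∣ B g₁ v₀)
    (h3g : (3 : ℤ) ∣ k ^ 2 * t + 4 * B u v₀ ^ 2 - 2 * k ^ 2 * B v₀ v₀) {S e₀ : ℤ}
    (he₀ : e₀ % 3 = 2) (hD : 2 * t * B g₁ g₁ = S ^ 2 * e₀) :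
    ∃ x y m : ℤ, 2 * B (v₀ + x • u + y • g₁) (v₀ + x • u + y • g₁) - m ^ 2 = t := by
  have hexp : ∀ x y : ℤ,
      2 * B (v₀ + x • u + y • g₁) (v₀ + x • u + y • g₁) =
        2 * B v₀ v₀ + 4 * x * B u v₀ + 4 * y * B g₁ v₀ + k ^ 2 * x ^ 2 +
          2 * B g₁ g₁ * y ^ 2 := by
    intro x y
    simp only [map_add, LinearMap.add_apply, map_zsmul, LinearMap.smul_apply, smul_eq_mul]
    rw [hs g₁ u, hs v₀ u, hs v₀ g₁, h1, ← hu]
    ring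
  set β := B u v₀ with hβ
  set γ₁ := B g₁ v₀ with hγ₁
  set b₀ := B v₀ v₀ with hb₀
  set G₁ := B g₁ g₁ with hG₁
  set g : ℤ := k ^ 2 * t + 4 * β ^ 2 - 2 * k ^ 2 * b₀ with hg
  have hk2 : k ^ 2 ≠ 0 := pow_ne_zero 2 hk
  by_cases hg0 : g = 0
  · -- an exact solution
    have h3 : (2 * β) ^ 2 = k ^ 2 * (2 * b₀ - t) := by
      rw [hg] at hg0
      linear_combination hg0
    obtain ⟨m, hm⟩ : k ∣ 2 * β := (Int.pow_dvd_pow_iff two_ne_zero).1 ⟨_, h3⟩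
    refine ⟨0, 0, m, ?_⟩
    rw [hexp]
    apply mul_left_cancel₀ hk2
    rw [hm] at h3
    linear_combination -h3
  -- local solution
  obtain ⟨m₀, j, hj⟩ := hloc (g.natAbs + 1 + 1)
  set J := g.natAbs + 1 with hJ
  set w₀ := 2 * β + k * m₀ with hw₀
  set s₀ := 2 * β - k * m₀ with hs₀
  have hsw : s₀ * w₀ = g + k ^ 2 * ((2 * k) ^ (J + 1) * j) := by
    rw [← hj, hg, hw₀, hs₀]
    ring
  have h2k : (2 * k : ℤ) ≠ 0 := mul_ne_zero two_ne_zero hk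
  obtain ⟨c, w₁, hc0, ⟨e, he⟩, hw₁, hcop⟩ := coprime_part (w := w₀) (g := g) (n := 2 * k) (J := J)
    h2k (by
      have h3 : g.natAbs < 2 ^ g.natAbs := Nat.lt_two_pow_self
      have h4 : 2 ^ g.natAbs ≤ 2 ^ J := Nat.pow_le_pow_right two_pos (by omega)
      omega) hg0 (by
      intro p hp hpn hpw
      have h3 : g = s₀ * w₀ - k ^ 2 * ((2 * k) ^ (J + 1) * j) := by
        rw [hsw]
        ring
      rw [h3]
      refine dvd_sub (hpw.mul_left _) ?_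
      refine Dvd.dvd.mul_left (Dvd.dvd.mul_right ?_ _) _
      exact (pow_dvd_pow_of_dvd hpn J).trans (pow_dvd_pow _ (Nat.le_succ J)))
  -- the prime
  have hcop2 : IsCoprime w₁ (2 * k ^ 2 * c) := by
    refine IsCoprime.mul_right ?_ ?_
    · have h3 : IsCoprime w₁ ((2 * k) ^ 2) := hcop.pow_right
      exact h3.of_isCoprime_of_dvd_right ⟨2, by ring⟩
    · have h3 : IsCoprime w₁ ((2 * k) ^ J) := hcop.pow_right
      exact h3.of_isCoprime_of_dvd_right ⟨e, he⟩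
  have hN0 : 2 * k ^ 2 * c ≠ 0 := mul_ne_zero (mul_ne_zero two_ne_zero hk2) hc0.ne'
  have hDne : 2 * t * G₁ ≠ 0 := mul_ne_zero (mul_ne_zero two_ne_zero ht) hg1
  set Y := 2 * k ^ 2 * c with hY
  have h3Z : Prime (3 : ℤ) := Int.prime_three
  have h32k : ¬ (3 : ℤ) ∣ 2 * k := fun h => (h3Z.dvd_or_dvd h).elim (by norm_num) h3k
  have h3c : ¬ (3 : ℤ) ∣ c := fun h => h32k (h3Z.dvd_of_dvd_pow (h.trans ⟨e, he⟩ : (3 : ℤ) ∣ (2 * k) ^ J))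
  have h3Y : ¬ (3 : ℤ) ∣ Y := by
    intro h
    rcases h3Z.dvd_or_dvd h with h3 | h3
    · rcases h3Z.dvd_or_dvd h3 with h4 | h4
      · norm_num at h4
      · exact h3k (h3Z.dvd_of_dvd_pow h4)
    · exact h3c h3
  obtain ⟨l, hlb, hl, hrr, ρ₀, hρ₀⟩ := exists_prime_three he₀ hN0 h3Y hcop2
    (2 * (k ^ 2 * 2 * G₁ * Y ^ 2 * c).natAbs + 3)
  set ρ := S * ρ₀ with hρS
  have hρ : (l : ℤ) ∣ 2 * t * G₁ - ρ ^ 2 := by
    have h3 : 2 * t * G₁ - ρ ^ 2 = S ^ 2 * (e₀ - ρ₀ ^ 2) := by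
      rw [hD, hρS]
      ring
    rw [h3]
    exact hρ₀.mul_left _
  have hGG : k ^ 2 * 2 * G₁ * Y ^ 2 * c ≠ 0 := by
    refine mul_ne_zero (mul_ne_zero (mul_ne_zero (mul_ne_zero hk2 two_ne_zero) hg1)
      (pow_ne_zero 2 hN0)) hc0.ne'
  have hlZ : Prime (l : ℤ) := Nat.prime_iff_prime_int.1 hl
  have hlnd : ¬ (l : ℤ) ∣ k ^ 2 * 2 * G₁ * Y ^ 2 * c := by
    intro h
    have h3 := Int.natAbs_dvd_natAbs.2 h
    rw [Int.natAbs_natCast] at h3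
    have h4 := Nat.le_of_dvd (Int.natAbs_pos.2 hGG) h3
    omega
  obtain ⟨y, hy⟩ : ∃ y : ℤ, (l : ℤ) ∣ 2 * G₁ * Y * y + 2 * γ₁ - ρ := by
    have h3 : IsCoprime (l : ℤ) (2 * G₁ * Y) := by
      refine (Prime.coprime_iff_not_dvd hlZ).2 fun h => hlnd ?_
      exact h.trans ⟨k ^ 2 * Y * c, by ring⟩
    obtain ⟨a, b, hab⟩ := h3
    exact ⟨b * (ρ - 2 * γ₁), a * (2 * γ₁ - ρ), by linear_combination (ρ - 2 * γ₁) * hab⟩
  set E := -(k ^ 2 * 2 * G₁ * Y ^ 2) * y ^ 2 + -(k ^ 2 * (4 * γ₁ * Y)) * y + g with hE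
  have hyz : (l : ℤ) ∣ E := by
    have h3 : -(2 * G₁) * E = k ^ 2 * ((2 * G₁ * Y * y + 2 * γ₁ - ρ) *
        (2 * G₁ * Y * y + 2 * γ₁ + ρ) - (2 * t * G₁ - ρ ^ 2)) := by
      rw [hE, hg]
      linear_combination 4 * hdep
    have h4 : (l : ℤ) ∣ -(2 * G₁) * E := by
      rw [h3]
      exact (dvd_sub (hy.mul_right _) hρ).mul_left _
    refine (hlZ.dvd_or_dvd h4).resolve_left fun h => hlnd ?_
    rw [dvd_neg] at h
    exact h.trans ⟨k ^ 2 * Y ^ 2 * c, by ring⟩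
  -- divisibility of `E` by `c`
  obtain ⟨j', hj'⟩ : ∃ j', E = c * (s₀ * w₁ + 2 * k ^ 2 * j') := by
    refine ⟨-(k ^ 2 * 2 * G₁ * Y) * y ^ 2 - (4 * γ₁ * k ^ 2) * y - k * e * j, ?_⟩
    have h3 : g = s₀ * (c * w₁) - k ^ 2 * (2 * k * (c * e) * j) := by
      rw [← hw₁, ← he, hsw]
      ring
    rw [hE, h3, hY]
    ring
  have hl1 : (l : ℤ) ∣ s₀ * w₁ + 2 * k ^ 2 * j' := by
    rw [hj'] at hyz
    refine (hlZ.dvd_or_dvd hyz).resolve_left fun h => hlnd (h.mul_left _)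
  have hE3 : (3 : ℤ) ∣ E := by
    rw [hE]
    refine dvd_add (dvd_add ?_ ?_) h3g
    · refine Dvd.dvd.mul_right ((dvd_neg).2 ?_) _
      exact Dvd.dvd.mul_right (h3G.mul_left _) _
    · refine Dvd.dvd.mul_right ((dvd_neg).2 ?_) _
      exact Dvd.dvd.mul_left (Dvd.dvd.mul_right (h3γ.mul_left _) _) _
  have hl3 : (3 : ℤ) ∣ s₀ * w₁ + 2 * k ^ 2 * j' := by
    rw [hj'] at hE3
    exact (h3Z.dvd_or_dvd hE3).resolve_left h3c
  obtain ⟨L, ⟨r, hr⟩, s, hsE⟩ : ∃ L : ℤ, Y ∣ L - w₁ ∧ L ∣ s₀ * w₁ + 2 * k ^ 2 * j' := by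
    rcases hrr with h | h
    · exact ⟨l, h, hl1⟩
    · refine ⟨3 * l, h, ?_⟩
      refine IsCoprime.mul_dvd ?_ hl3 hl1
      refine (Prime.coprime_iff_not_dvd h3Z).2 fun h5 => ?_
      have h6 := Int.natCast_dvd_natCast.1 (by exact_mod_cast h5 : ((3 : ℕ) : ℤ) ∣ (l : ℤ))
      have h7 := (Nat.prime_dvd_prime_iff_eq Nat.prime_three hl).1 h6
      omega
  -- `s = s₀` modulo `2 k ^ 2`
  have h4 : L = w₁ + 2 * k ^ 2 * c * r := by
    rw [hY] at hr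
    linear_combination hr
  obtain ⟨b, hb⟩ : 2 * k ^ 2 ∣ s - s₀ := by
    have h3 : IsCoprime (2 * k ^ 2) w₁ :=
      (hcop2.of_isCoprime_of_dvd_right ⟨c, rfl⟩).symm
    refine h3.dvd_of_dvd_mul_right (z := w₁) (y := s - s₀) ?_
    refine ⟨j' - c * r * s, ?_⟩
    rw [h4] at hsE
    linear_combination -hsE
  refine ⟨c * c * r + b, Y * y, m₀ + k * (c * c * r - b), ?_⟩
  rw [hexp]
  apply mul_left_cancel₀ hk2
  have h5 : s = s₀ + 2 * k ^ 2 * b := by linear_combination hb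
  have h6 : E = s * (c * L) := by
    rw [hj', hsE]
    ring
  have h7 : s + c * L = 4 * β + 2 * (k ^ 2 * (c * c * r + b)) := by
    rw [h5, h4, hs₀]
    have h8 : c * w₁ = 2 * β + k * m₀ := by rw [← hw₁]
    linear_combination h8
  have h8 : c * L - s = 2 * (k * (m₀ + k * (c * c * r - b))) := by
    rw [h5, h4, hs₀]
    have h8 : c * w₁ = 2 * β + k * m₀ := by rw [← hw₁]
    linear_combination h8
  set x := c * c * r + b with hx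
  set m := m₀ + k * (c * c * r - b) with hm
  have h9 : 4 * (s * (c * L)) = (4 * β + 2 * (k ^ 2 * x)) ^ 2 - (2 * (k * m)) ^ 2 := by
    rw [← h7, ← h8]
    ring
  rw [← h6, hE, hg] at h9
  have h10 : (4 : ℤ) ≠ 0 := by norm_num
  apply mul_left_cancel₀ h10
  linear_combination -h9
end Pool.Agent.Helper56K9.GS
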