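import Mathlib

/-!
# Squares modulo powers
-/

set_option autoImplicit false

namespace Pool.Agent.Helper56K9.GS

/-- `N` is a square modulo all powers of `p` -/
def SqMod (p N : ℤ) : Prop := ∀ J : ℕ, ∃ m : ℤ, p ^ J ∣ N - m ^ 2

theorem sqMod_odd {p : ℕ} (hp : p.Prime) (hp2 : p ≠ 2) {N m : ℤ} (hN : ¬ (p : ℤ) ∣ N)
    (h : (p : ℤ) ∣ N - m ^ 2) : SqMod p N := by
  have hpZ : Prime (p : ℤ) := Nat.prime_iff_prime_int.1 hp
  have key : ∀ J : ℕ, ∃ m : ℤ, (p : ℤ) ^ (J + 1) ∣ N - m ^ 2 := by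
    intro J
    induction J with
    | zero => exact ⟨m, by simpa using h⟩
    | succ J ih =>
      obtain ⟨a, q, hq⟩ := ih
      have ha : ¬ (p : ℤ) ∣ 2 * a := by
        intro h1
        rcases hpZ.dvd_or_dvd h1 with h2 | h2
        · have h3 : p ∣ 2 := by exact_mod_cast h2
          exact hp2 ((Nat.prime_dvd_prime_iff_eq hp Nat.prime_two).1 h3)
        · apply hN
          have h3 : N = (N - a ^ 2) + a * a := by ring
          rw [h3]
          refine dvd_add ?_ (h2.mul_right a)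
          rw [hq]
          exact (dvd_pow_self _ (Nat.succ_ne_zero J)).mul_right q
      obtain ⟨x, y, hxy⟩ := (Prime.coprime_iff_not_dvd hpZ).2 ha
      -- `x p + y (2 a) = 1`
      refine ⟨a + (p : ℤ) ^ (J + 1) * (y * q), x * q - (p : ℤ) ^ J * (y * q) ^ 2, ?_⟩
      have h5 : N - (a + (p : ℤ) ^ (J + 1) * (y * q)) ^ 2 =
          (N - a ^ 2) - (p : ℤ) ^ (J + 1) * (y * (2 * a)) * q -
            ((p : ℤ) ^ (J + 1)) ^ 2 * (y * q) ^ 2 := by ring
      have h6 : y * (2 * a) = 1 - x * p := by linear_combination hxy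
      rw [h5, hq, h6]
      ring
  intro J
  rcases J with _ | J
  · exact ⟨0, by simp⟩
  · exact key J

theorem sqMod_two {N : ℤ} (h : (8 : ℤ) ∣ N - 1) : SqMod 2 N := by
  have key : ∀ J : ℕ, ∃ m : ℤ, m % 2 = 1 ∧ (2 : ℤ) ^ (J + 3) ∣ N - m ^ 2 := by
    intro J
    induction J with
    | zero => exact ⟨1, by norm_num, by simpa using h⟩
    | succ J ih =>
      obtain ⟨a, ha, q, hq⟩ := ih
      obtain ⟨b, hb⟩ : ∃ b, a = 2 * b + 1 := ⟨a / 2, by omega⟩
      rcases Int.even_or_odd' q with ⟨r, hr | hr⟩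
      · exact ⟨a, ha, r, by rw [hq, hr]; ring⟩
      · refine ⟨a + 2 ^ (J + 2), ?_, r - b - 2 ^ J, ?_⟩
        · have : (2 : ℤ) ^ (J + 2) = 2 * 2 ^ (J + 1) := by ring
          omega
        · have h5 : N - (a + 2 ^ (J + 2)) ^ 2 = (N - a ^ 2) - 2 ^ (J + 3) * a -
              (2 : ℤ) ^ (J + 2) * 2 ^ (J + 2) := by ring
          rw [h5, hq, hr, hb]
          ring
  intro J
  obtain ⟨m, -, hm⟩ := key J
  exact ⟨m, (pow_dvd_pow _ (by omega)).trans hm⟩

/-- multiplication by a square -/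
theorem SqMod.mul_sq {p N c N' : ℤ} (h : SqMod p N) (hN : N' = c ^ 2 * N) : SqMod p N' := by
  intro J
  obtain ⟨m, hm⟩ := h J
  refine ⟨c * m, ?_⟩
  have : N' - (c * m) ^ 2 = c ^ 2 * (N - m ^ 2) := by rw [hN]; ring
  rw [this]
  exact hm.mul_left _

/-- the Chinese remainder theorem for squares -/
theorem exists_sq_of_primes {N : ℤ} (n : ℕ) (hn : n ≠ 0)
    (h : ∀ p : ℕ, p.Prime → p ∣ n → SqMod p N) : ∃ m : ℤ, (n : ℤ) ∣ N - m ^ 2 := by
  induction n using Nat.recOnPosPrimePosCoprime with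
  | prime_pow p j hp hj =>
    obtain ⟨m, hm⟩ := h p hp (dvd_pow_self p hj.ne') j
    exact ⟨m, by push_cast; exact hm⟩
  | zero => exact absurd rfl hn
  | one => exact ⟨0, by simp⟩
  | coprime a b ha hb hab iha ihb =>
    obtain ⟨m₁, h₁⟩ := iha (by omega) fun p hp hpa => h p hp (hpa.mul_right b)
    obtain ⟨m₂, h₂⟩ := ihb (by omega) fun p hp hpb => h p hp (hpb.mul_left a)
    have hco : IsCoprime (a : ℤ) (b : ℤ) := Nat.isCoprime_iff_coprime.2 hab
    obtain ⟨x, y, hxy⟩ := hco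
    set m : ℤ := m₁ * (y * b) + m₂ * (x * a) with hm
    have e1 : m - m₁ = a * (x * (m₂ - m₁)) := by
      have : y * b = 1 - x * a := by linear_combination hxy
      rw [hm, this]
      ring
    have e2 : m - m₂ = b * (y * (m₁ - m₂)) := by
      have : x * a = 1 - y * b := by linear_combination hxy
      rw [hm, this]
      ring
    refine ⟨m, ?_⟩
    rw [Nat.cast_mul]
    refine IsCoprime.mul_dvd ⟨x, y, hxy⟩ ?_ ?_
    · have : N - m ^ 2 = (N - m₁ ^ 2) - (m - m₁) * (m + m₁) := by ring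
      rw [this, e1]
      exact dvd_sub h₁ (dvd_mul_of_dvd_left (dvd_mul_right _ _) _)
    · have : N - m ^ 2 = (N - m₂ ^ 2) - (m - m₂) * (m + m₂) := by ring
      rw [this, e2]
      exact dvd_sub h₂ (dvd_mul_of_dvd_left (dvd_mul_right _ _) _)

theorem sqMod_of_primes {N n : ℤ} (hn : n ≠ 0)
    (h : ∀ p : ℕ, p.Prime → (p : ℤ) ∣ n → SqMod p N) : SqMod n N := by
  intro J
  obtain ⟨m, hm⟩ := exists_sq_of_primes (N := N) (n.natAbs ^ J)
    (pow_ne_zero _ (Int.natAbs_ne_zero.2 hn)) (by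
      intro p hp hpd
      exact h p hp (Int.natCast_dvd.2 (hp.dvd_of_dvd_pow hpd)))
  refine ⟨m, ?_⟩
  have h1 : n ^ J ∣ ((n.natAbs ^ J : ℕ) : ℤ) := by
    rw [← Int.natAbs_pow]
    exact Int.dvd_natAbs.2 dvd_rfl
  exact h1.trans hm

/-- the Chinese remainder theorem for vectors -/
theorem exists_crt {M : Type*} [AddCommGroup M] (C : M → Prop)
    (hadd : ∀ v w, C v → C w → C (v + w)) (hsmul : ∀ (n : ℤ) v, C v → C (n • v)) (h0 : C 0)
    (S : Finset ℕ) (hS : ∀ p ∈ S, p.Prime) (a : ℕ → M) (ha : ∀ p ∈ S, C (a p)) (j : ℕ) :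
    ∃ v, C v ∧ ∀ p ∈ S, ∃ w, v = a p + ((p : ℤ) ^ j) • w := by
  classical
  induction S using Finset.induction_on with
  | empty => exact ⟨0, h0, by simp⟩
  | insert q S hq ih =>
    obtain ⟨v, hv, hvS⟩ := ih (fun p hp => hS p (Finset.mem_insert_of_mem hp))
      (fun p hp => ha p (Finset.mem_insert_of_mem hp))
    have hqp : q.Prime := hS q (Finset.mem_insert_self _ _)
    have hco : IsCoprime (∏ p ∈ S, (p : ℤ) ^ j) ((q : ℤ) ^ j) := by
      refine IsCoprime.prod_left fun p hp => ?_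
      refine IsCoprime.pow ?_
      rw [Nat.isCoprime_iff_coprime]
      refine (Nat.coprime_primes (hS p (Finset.mem_insert_of_mem hp)) hqp).2 ?_
      rintro rfl
      exact hq hp
    obtain ⟨x, y, hxy⟩ := hco
    set P := ∏ p ∈ S, (p : ℤ) ^ j with hP
    refine ⟨(y * (q : ℤ) ^ j) • v + (x * P) • a q, hadd _ _ (hsmul _ _ hv)
      (hsmul _ _ (ha q (Finset.mem_insert_self _ _))), ?_⟩
    intro p hp
    rcases Finset.mem_insert.1 hp with rfl | hp
    · refine ⟨y • (v - a p), ?_⟩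
      have h1 : x * P = 1 - y * (p : ℤ) ^ j := by linear_combination hxy
      rw [h1]
      module
    · obtain ⟨w, hw⟩ := hvS p hp
      obtain ⟨P', hP'⟩ : (p : ℤ) ^ j ∣ P := Finset.dvd_prod_of_mem _ hp
      refine ⟨w + (x * P') • (a q - v), ?_⟩
      have h1 : y * (q : ℤ) ^ j = 1 - x * P := by linear_combination hxy
      have h2 : (y * (q : ℤ) ^ j) • v + (x * P) • a q = v + (x * P) • (a q - v) := by
        rw [h1]
        module
      rw [h2]
      nth_rewrite 1 [hw]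
      rw [hP']
      module
end Pool.Agent.Helper56K9.GS
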