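import Pool.Agent.X328.CF.Prog
import Pool.Agent.Helper56K9.GS.Core
import Pool.Agent.Helper56K9.GS.Local

/-!
# The discriminant form of a cubic fourfold and its values
-/

set_option autoImplicit false

namespace Pool.Agent.Helper56K9.GS

open Pool.Agent.Y95.Q Pool.Agent.Y95.Q.H4 Pool.Agent.X328.CF

variable {X : CubicFourfold}

/-- the bilinear form of the discriminant -/
noncomputable def bil (H : H4 X) : LinearMap.BilinForm ℤ (Fin 23 → ℤ) :=
  LinearMap.mk₂ ℤ (fun v w => 3 * H.ip v w - H.ip v H.h * H.ip w H.h)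
    (by
      intro u v w
      rw [ip_add_left, ip_add_left]
      ring)
    (by
      intro c u v
      rw [ip_smul_left, ip_smul_left, smul_eq_mul]
      ring)
    (by
      intro u v w
      rw [ip_add_right, ip_add_left]
      ring)
    (by
      intro c u v
      rw [ip_smul_right, ip_smul_left, smul_eq_mul]
      ring)

theorem bil_apply (H : H4 X) (v w : Fin 23 → ℤ) :
    bil H v w = 3 * H.ip v w - H.ip v H.h * H.ip w H.h := rfl

variable {H : H4 X}

theorem bil_comm (hH : H.IsCohomology) (v w : Fin 23 → ℤ) : bil H v w = bil H w v := by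
  rw [bil_apply, bil_apply, hH.comm v w]
  ring

theorem bil_self (hH : H.IsCohomology) (v : Fin 23 → ℤ) : bil H v v = H.disc v := by
  rw [bil_apply, disc, hH.comm H.h v]
  ring

theorem bil_h (hH : H.IsCohomology) (v : Fin 23 → ℤ) : bil H v H.h = 0 := by
  rw [bil_apply, hH.h_self]
  ring

theorem disc_add_smul (hH : H.IsCohomology) (a w : Fin 23 → ℤ) (n : ℤ) :
    H.disc (a + n • w) = H.disc a + 2 * n * bil H a w + n ^ 2 * H.disc w := by
  rw [← bil_self hH, ← bil_self hH a, ← bil_self hH w]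
  simp only [map_add, LinearMap.add_apply, map_zsmul, LinearMap.smul_apply, smul_eq_mul,
    bil_comm hH w a]
  ring

theorem disc_smul (hH : H.IsCohomology) (a : Fin 23 → ℤ) (n : ℤ) :
    H.disc (n • a) = n ^ 2 * H.disc a := by
  rw [← bil_self hH, ← bil_self hH a]
  simp only [map_zsmul, LinearMap.smul_apply, smul_eq_mul]
  ring

/-- the kernel of the discriminant -/
theorem of_disc_eq_zero (hH : H.IsCohomology) {v : Fin 23 → ℤ} (hv : H.IsHodge v)
    (h0 : H.disc v = 0) : (3 : ℤ) • v = H.ip H.h v • H.h := by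
  have h1 : H.IsHodge ((3 : ℤ) • v - H.ip H.h v • H.h) :=
    H.isHodge_sub (H.isHodge_smul _ hv) (H.isHodge_smul _ hH.h_hodge)
  have h3 : H.ip ((3 : ℤ) • v - H.ip H.h v • H.h) ((3 : ℤ) • v - H.ip H.h v • H.h) =
      3 * H.disc v := by
    simp only [disc, ip_sub_left, ip_sub_right, ip_smul_left, ip_smul_right, hH.h_self,
      hH.comm v H.h]
    ring
  by_contra hne
  have h4 := hH.pos _ h1 (fun h => hne (sub_eq_zero.1 h))
  rw [h3, h0] at h4
  omega

/-- **The congruences**: some Hodge class has a discriminant not divisible by `4`; some Hodge class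
has a discriminant which is not divisible by `3`, or congruent to `6` modulo `9`; for every odd
prime number `p` with `p ≡ 2 mod 3` some Hodge class has a discriminant not divisible by `p`. -/
structure Congruences (H : H4 X) : Prop where
  two : ∃ v, H.IsHodge v ∧ ¬ 4 ∣ H.disc v
  three : ∃ v, H.IsHodge v ∧ (¬ 3 ∣ H.disc v ∨ H.disc v % 9 = 6)
  prime : ∀ p : ℕ, p.Prime → p ≠ 2 → p % 3 = 2 → ∃ v, H.IsHodge v ∧ ¬ (p : ℤ) ∣ H.disc v

/-- `-3` is a square modulo `p` -/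
theorem exists_neg_three {p : ℕ} (hp : p.Prime) (h : p % 3 = 1) :
    ∃ m : ℤ, (p : ℤ) ∣ -3 - m ^ 2 := by
  have : Fact p.Prime := ⟨hp⟩
  have h3 : 3 ∣ Fintype.card (ZMod p)ˣ := by
    rw [ZMod.card_units]
    have := hp.two_le
    omega
  obtain ⟨x, hx⟩ := exists_prime_orderOf_dvd_card 3 h3
  have h1 : (x : ZMod p) ^ 3 = 1 := by
    have := pow_orderOf_eq_one x
    rw [hx] at this
    have h5 := congrArg Units.val this
    rwa [Units.val_pow_eq_pow_val, Units.val_one] at h5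
  have h2 : (x : ZMod p) ≠ 1 := by
    intro h2
    have h4 : x = 1 := Units.ext (by rw [h2]; rfl)
    rw [h4, orderOf_one] at hx
    omega
  have h4 : (x : ZMod p) ^ 2 + x + 1 = 0 := by
    have h5 : ((x : ZMod p) - 1) * ((x : ZMod p) ^ 2 + x + 1) = 0 := by linear_combination h1
    exact (mul_eq_zero.1 h5).resolve_left (sub_ne_zero.2 h2)
  refine ⟨2 * ((x : ZMod p).val : ℤ) + 1, ?_⟩
  rw [← ZMod.intCast_zmod_eq_zero_iff_dvd]
  push_cast
  rw [ZMod.natCast_zmod_val]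
  linear_combination (-4) * h4

/-- an auxiliary solution modulo `p` -/
theorem exists_sol {p : ℕ} (hp : p.Prime) (hp2 : p ≠ 2) (hp3 : p ≠ 3) {q : ℤ}
    (hq : ¬ (p : ℤ) ∣ q) : ∃ x m : ℤ, ¬ (p : ℤ) ∣ m ∧ (p : ℤ) ∣ 2 * (x ^ 2 * q) - 3 - m ^ 2 := by
  have hpZ : Prime (p : ℤ) := Nat.prime_iff_prime_int.1 hp
  have h2 : ¬ (p : ℤ) ∣ 2 := fun h =>
    hp2 ((Nat.prime_dvd_prime_iff_eq hp Nat.prime_two).1 (by exact_mod_cast h))
  have h3 : ¬ (p : ℤ) ∣ 3 := fun h =>
    hp3 ((Nat.prime_dvd_prime_iff_eq hp Nat.prime_three).1 (by exact_mod_cast h))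
  obtain ⟨x, m, hxm⟩ := exists_mod hp hp2 (a := 2 * q) (b := 0) (a' := -1) (b' := 0) (c := -3)
    (fun h => (hpZ.dvd_or_dvd h).elim h2 hq) (by
      rw [dvd_neg]
      exact fun h => hpZ.not_isUnit (isUnit_of_dvd_one h))
  by_cases hm : (p : ℤ) ∣ m
  · refine ⟨2 * x, 3, h3, ?_⟩
    have h4 : (p : ℤ) ∣ 2 * q * x ^ 2 - 3 := by
      have h5 : 2 * q * x ^ 2 - 3 = (2 * q * x ^ 2 + 0 * x + (-1 * m ^ 2 + 0 * m + -3)) +
          m * m := by ring
      rw [h5]
      exact dvd_add hxm (hm.mul_right m)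
    have h5 : 2 * ((2 * x) ^ 2 * q) - 3 - 3 ^ 2 = 4 * (2 * q * x ^ 2 - 3) := by ring
    rw [h5]
    exact h4.mul_left 4
  · refine ⟨x, m, hm, ?_⟩
    have h5 : 2 * (x ^ 2 * q) - 3 - m ^ 2 = 2 * q * x ^ 2 + 0 * x + (-1 * m ^ 2 + 0 * m + -3) := by
      ring
    rw [h5]
    exact hxm

/-- the local solutions -/
theorem exists_local (hH : H.IsCohomology) (hC : Congruences H) {p : ℕ} (hp : p.Prime) :
    ∃ a, H.IsHodge a ∧ ∀ w, SqMod p (2 * H.disc (a + ((p : ℤ) ^ 3) • w) - 3) := by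
  have hpZ : Prime (p : ℤ) := Nat.prime_iff_prime_int.1 hp
  by_cases hp2 : p = 2
  · subst hp2
    obtain ⟨a, ha, h4⟩ := hC.two
    refine ⟨a, ha, fun w => ?_⟩
    have h2 := disc_even hH a
    push_cast
    refine sqMod_two ?_
    rw [disc_add_smul hH]
    obtain ⟨q, hq⟩ : ∃ q, H.disc a = 4 * q + 2 := ⟨H.disc a / 4, by omega⟩
    rw [hq]
    exact ⟨q + 4 * bil H a w + 16 * H.disc w, by ring⟩
  by_cases hp3 : p = 3
  · subst hp3
    obtain ⟨v, hv, h | h⟩ := hC.three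
    · refine ⟨v, hv, fun w => ?_⟩
      have h2 := disc_mod_three (H := H) v
      obtain ⟨q, hq⟩ : ∃ q, H.disc v = 3 * q + 2 := ⟨H.disc v / 3, by omega⟩
      have h3 : 2 * H.disc (v + (((3 : ℕ) : ℤ) ^ 3) • w) - 3 =
          3 * (2 * q + 36 * bil H v w + 486 * H.disc w) + 1 := by
        rw [disc_add_smul hH, hq]
        push_cast
        ring
      rw [h3]
      refine sqMod_odd (m := 1) Nat.prime_three (by norm_num) ?_ ?_
      · push_cast
        omega
      · push_cast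
        exact ⟨2 * q + 36 * bil H v w + 486 * H.disc w, by ring⟩
    · obtain ⟨a, ha, q, hq⟩ : ∃ a, H.IsHodge a ∧ ∃ q, H.disc a = 27 * q + 6 := by
        obtain ⟨q, hq⟩ : ∃ q, H.disc v = 9 * q + 6 := ⟨H.disc v / 9, by omega⟩
        have h3 : q % 3 = 0 ∨ q % 3 = 1 ∨ q % 3 = 2 := by omega
        rcases h3 with h3 | h3 | h3
        · exact ⟨v, hv, q / 3, by omega⟩
        · refine ⟨(2 : ℤ) • v, H.isHodge_smul _ hv, (4 * q + 2) / 3, ?_⟩
          rw [disc_smul hH, hq]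
          omega
        · refine ⟨(4 : ℤ) • v, H.isHodge_smul _ hv, (16 * q + 10) / 3, ?_⟩
          rw [disc_smul hH, hq]
          omega
      refine ⟨a, ha, fun w => ?_⟩
      refine SqMod.mul_sq (c := 3)
        (N := 3 * (2 * q + 4 * bil H a w + 54 * H.disc w) + 1) ?_ ?_
      · refine sqMod_odd (m := 1) Nat.prime_three (by norm_num) ?_ ?_
        · push_cast
          omega
        · push_cast
          exact ⟨2 * q + 4 * bil H a w + 54 * H.disc w, by ring⟩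
      · rw [disc_add_smul hH, hq]
        push_cast
        ring
  have h3 : p % 3 = 1 ∨ p % 3 = 2 := by
    have h4 : ¬ 3 ∣ p := fun h => hp3 ((Nat.prime_dvd_prime_iff_eq Nat.prime_three hp).1 h).symm
    omega
  have hn3 : ¬ (p : ℤ) ∣ 3 := fun h =>
    hp3 ((Nat.prime_dvd_prime_iff_eq hp Nat.prime_three).1 (by exact_mod_cast h))
  rcases h3 with h3 | h3
  · obtain ⟨m, hm⟩ := exists_neg_three hp h3
    refine ⟨0, H.isHodge_zero, fun w => ?_⟩
    have e1 : 2 * H.disc (0 + ((p : ℤ) ^ 3) • w) - 3 = p * (2 * p ^ 5 * H.disc w) - 3 := by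
      rw [zero_add, disc_smul hH]
      ring
    rw [e1]
    refine sqMod_odd (m := m) hp hp2 ?_ ?_
    · intro h
      apply hn3
      have h4 := dvd_sub (Dvd.intro _ rfl : (p : ℤ) ∣ p * (2 * p ^ 5 * H.disc w)) h
      rwa [sub_sub_cancel] at h4
    · have h4 : p * (2 * p ^ 5 * H.disc w) - 3 - m ^ 2 =
          p * (2 * p ^ 5 * H.disc w) + (-3 - m ^ 2) := by ring
      rw [h4]
      exact dvd_add (Dvd.intro _ rfl) hm
  · obtain ⟨v, hv, hd⟩ := hC.prime p hp hp2 h3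
    obtain ⟨x, m, hm, hxm⟩ := exists_sol hp hp2 hp3 hd
    refine ⟨x • v, H.isHodge_smul _ hv, fun w => ?_⟩
    have e1 : 2 * H.disc (x • v + ((p : ℤ) ^ 3) • w) - 3 =
        (2 * (x ^ 2 * H.disc v) - 3 - m ^ 2) + m ^ 2 +
          p * (4 * p ^ 2 * bil H (x • v) w + 2 * p ^ 5 * H.disc w) := by
      rw [disc_add_smul hH, disc_smul hH]
      ring
    rw [e1]
    refine sqMod_odd (m := m) hp hp2 ?_ ?_
    · intro h
      apply hm
      have h4 := dvd_sub (dvd_sub h (Dvd.intro _ rfl : (p : ℤ) ∣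
        p * (4 * p ^ 2 * bil H (x • v) w + 2 * p ^ 5 * H.disc w))) hxm
      have h6 : (2 * (x ^ 2 * H.disc v) - 3 - m ^ 2) + m ^ 2 +
          p * (4 * p ^ 2 * bil H (x • v) w + 2 * p ^ 5 * H.disc w) -
          p * (4 * p ^ 2 * bil H (x • v) w + 2 * p ^ 5 * H.disc w) -
          (2 * (x ^ 2 * H.disc v) - 3 - m ^ 2) = m ^ 2 := by ring
      rw [h6] at h4
      exact hpZ.dvd_of_dvd_pow h4
    · have h4 : (2 * (x ^ 2 * H.disc v) - 3 - m ^ 2) + m ^ 2 +
          p * (4 * p ^ 2 * bil H (x • v) w + 2 * p ^ 5 * H.disc w) - m ^ 2 =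
          (2 * (x ^ 2 * H.disc v) - 3 - m ^ 2) +
          p * (4 * p ^ 2 * bil H (x • v) w + 2 * p ^ 5 * H.disc w) := by ring
      rw [h4]
      exact dvd_add hxm (Dvd.intro _ rfl)

/-- a Hodge class with the right properties modulo all powers of `n` -/
theorem exists_local_all (hH : H.IsCohomology) (hC : Congruences H) {n : ℤ} (hn : n ≠ 0) :
    ∃ v₀, H.IsHodge v₀ ∧ SqMod n (2 * bil H v₀ v₀ - 3) := by
  choose! a ha1 ha2 using fun (p : ℕ) (hp : p.Prime) => exists_local hH hC hp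
  obtain ⟨v, hv, hvS⟩ := exists_crt (M := Fin 23 → ℤ) H.IsHodge
    (fun v w hv hw => H.isHodge_add hv hw) (fun c v hv => H.isHodge_smul c hv) H.isHodge_zero
    n.natAbs.primeFactors (fun p hp => Nat.prime_of_mem_primeFactors hp) a
    (fun p hp => ha1 p (Nat.prime_of_mem_primeFactors hp)) 3
  refine ⟨v, hv, sqMod_of_primes hn fun p hp hpn => ?_⟩
  obtain ⟨w, hw⟩ := hvS p (Nat.mem_primeFactors.2 ⟨hp, Int.natCast_dvd.1 hpn,
    Int.natAbs_ne_zero.2 hn⟩)
  rw [bil_self hH, hw]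
  exact ha2 p hp w

/-- **Existence of a class with discriminant `2 n ^ 2 + 2 n + 2`.** -/
theorem exists_value (hH : H.IsCohomology) (hC : Congruences H) {u g₁ g₂ : Fin 23 → ℤ} {k : ℤ}
    (hk : k ≠ 0) (huH : H.IsHodge u) (hu : 2 * H.disc u = k ^ 2) (hg1H : H.IsHodge g₁)
    (hg2H : H.IsHodge g₂) (h1 : bil H u g₁ = 0) (h2 : bil H u g₂ = 0) (h12 : bil H g₁ g₂ = 0)
    (hg1 : H.disc g₁ ≠ 0) (hg2 : H.disc g₂ ≠ 0) :
    ∃ (v : Fin 23 → ℤ) (n : ℤ), H.IsHodge v ∧ H.disc v = 2 * n ^ 2 + 2 * n + 2 := by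
  obtain ⟨v₀, hv₀, hloc⟩ := exists_local_all hH hC (n := 2 * k) (mul_ne_zero two_ne_zero hk)
  obtain ⟨x, y, z, m, h⟩ := core (bil H) (bil_comm hH) (u := u) (g₁ := g₁) (g₂ := g₂) (v₀ := v₀)
    (t := 3) hk (by rw [bil_self hH]; exact hu) h1 h2 h12 (by rwa [bil_self hH])
    (by rwa [bil_self hH]) hloc
  rw [bil_self hH] at h
  refine ⟨_, (m - 1) / 2, H.isHodge_add (H.isHodge_add (H.isHodge_add hv₀
    (H.isHodge_smul x huH)) (H.isHodge_smul y hg1H)) (H.isHodge_smul z hg2H), ?_⟩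
  obtain ⟨n, hn | hn⟩ := Int.even_or_odd' m
  · exfalso
    rw [hn] at h
    have h3 : (2 * n) ^ 2 = 4 * n ^ 2 := by ring
    rw [h3] at h
    omega
  · have h3 : (m - 1) / 2 = n := by omega
    rw [h3]
    rw [hn] at h
    have h4 : (2 * n + 1) ^ 2 = 4 * n ^ 2 + 4 * n + 1 := by ring
    rw [h4] at h
    omega
end Pool.Agent.Helper56K9.GS
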