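import Pool.Agent.Helper56K9.GS.Disc

/-!
# Explicit solutions for classes of discriminant `8`, `18` and `2 a ^ 2`
-/

set_option autoImplicit false

namespace Pool.Agent.Helper56K9.GS

open Pool.Agent.Y95.Q Pool.Agent.Y95.Q.H4 Pool.Agent.X328.CF

/-- the case of discriminant `8` -/
theorem sol8 (b c : ℤ) (h4 : c % 4 = 2) :
    ∃ x y m : ℤ, 2 * (8 * x ^ 2 + 2 * (2 * b) * (x * y) + c * y ^ 2) = m ^ 2 + 3 := by
  obtain ⟨c', rfl⟩ : ∃ c', c = 4 * c' + 2 := ⟨c / 4, by omega⟩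
  have key : ∀ b c' : ℤ, b % 4 = 1 → ∃ x y m : ℤ,
      2 * (8 * x ^ 2 + 2 * (2 * b) * (x * y) + (4 * c' + 2) * y ^ 2) = m ^ 2 + 3 := by
    intro b c' hb
    obtain ⟨e, rfl⟩ : ∃ e, b = 4 * e + 1 := ⟨b / 4, by omega⟩
    obtain ⟨t, ht | ht⟩ := Int.even_or_odd' (c' + e)
    · obtain rfl : c' = 2 * t - e := by omega
      exact ⟨e ^ 2 - t, 1, 4 * e ^ 2 + 4 * e - 4 * t - 1, by ring⟩
    · obtain rfl : c' = 2 * t + 1 - e := by omega
      exact ⟨9 * e ^ 2 + 12 * e - 9 * t - 5, -3, 36 * e ^ 2 + 36 * e - 36 * t - 25, by ring⟩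
  have h : b % 2 = 0 ∨ b % 4 = 1 ∨ b % 4 = 3 := by omega
  rcases h with h | h | h
  · obtain ⟨e, rfl⟩ : ∃ e, b = 2 * e := ⟨b / 2, by omega⟩
    obtain ⟨t, ht | ht⟩ := Int.even_or_odd' e
    · subst ht
      exact ⟨-c' + 2 * t ^ 2 - t, 1, 8 * t ^ 2 - 4 * c' - 1, by ring⟩
    · subst ht
      exact ⟨-c' + 2 * t ^ 2 + t, 1, 2 * (2 * t + 1) ^ 2 - 4 * c' - 1, by ring⟩
  · exact key b c' h
  · obtain ⟨x, y, m, hxy⟩ := key (-b) c' (by omega)
    exact ⟨x, -y, m, by rw [← hxy]; ring⟩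

/-- the case of discriminant `18` -/
theorem sol18 (b c : ℤ) (h2 : c % 2 = 0)
    (h3 : c % 3 = 2 ∨ (c % 3 = 0 ∧ ¬ 3 ∣ b) ∨ (3 ∣ b ∧ c % 9 = 6)) :
    ∃ x y m : ℤ, 2 * (18 * x ^ 2 + 2 * (3 * b) * (x * y) + c * y ^ 2) = m ^ 2 + 3 := by
  obtain ⟨c', rfl⟩ : ∃ c', c = 2 * c' := ⟨c / 2, by omega⟩
  have key : ∀ b s : ℤ, s ^ 2 = 1 → (1 - 4 * c' + b ^ 2 - b * s) % 3 = 0 → ∃ x y m : ℤ,
      2 * (18 * x ^ 2 + 2 * (3 * b) * (x * y) + (2 * c') * y ^ 2) = m ^ 2 + 3 := by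
    intro b s hs h
    obtain ⟨x, hx⟩ : ∃ x, 1 - 4 * c' + b ^ 2 - b * s = 3 * x :=
      ⟨(1 - 4 * c' + b ^ 2 - b * s) / 3, by omega⟩
    refine ⟨x, 2 * s, 1 - 8 * c' + 2 * b ^ 2, ?_⟩
    have e1 : 2 * (18 * x ^ 2 + 2 * (3 * b) * (x * (2 * s)) + 2 * c' * (2 * s) ^ 2) =
        4 * (3 * x) ^ 2 + 8 * (b * s) * (3 * x) + 16 * c' * s ^ 2 := by ring
    rw [e1, ← hx]
    linear_combination (16 * c' - 4 * b ^ 2) * hs
  have hb : b % 3 = 0 ∨ b % 3 = 1 ∨ b % 3 = 2 := by omega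
  rcases h3 with h3 | ⟨h3, h4⟩ | ⟨h3, h4⟩
  · rcases hb with hb | hb | hb
    · refine key b 1 (by norm_num) ?_
      obtain ⟨e, rfl⟩ : ∃ e, b = 3 * e := ⟨b / 3, by omega⟩
      have : 1 - 4 * c' + (3 * e) ^ 2 - 3 * e * 1 = 1 - 4 * c' + 3 * (3 * e ^ 2 - e) := by ring
      rw [this]
      omega
    · refine key b 1 (by norm_num) ?_
      obtain ⟨e, rfl⟩ : ∃ e, b = 3 * e + 1 := ⟨b / 3, by omega⟩
      have : 1 - 4 * c' + (3 * e + 1) ^ 2 - (3 * e + 1) * 1 =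
        1 - 4 * c' + 3 * (3 * e ^ 2 + e) := by ring
      rw [this]
      omega
    · refine key b (-1) (by norm_num) ?_
      obtain ⟨e, rfl⟩ : ∃ e, b = 3 * e - 1 := ⟨(b + 1) / 3, by omega⟩
      have : 1 - 4 * c' + (3 * e - 1) ^ 2 - (3 * e - 1) * (-1) =
        1 - 4 * c' + 3 * (3 * e ^ 2 - e) := by ring
      rw [this]
      omega
  · rcases hb with hb | hb | hb
    · omega
    · refine key b (-1) (by norm_num) ?_
      obtain ⟨e, rfl⟩ : ∃ e, b = 3 * e + 1 := ⟨b / 3, by omega⟩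
      have : 1 - 4 * c' + (3 * e + 1) ^ 2 - (3 * e + 1) * (-1) =
        3 - 4 * c' + 3 * (3 * e ^ 2 + 3 * e) := by ring
      rw [this]
      omega
    · refine key b 1 (by norm_num) ?_
      obtain ⟨e, rfl⟩ : ∃ e, b = 3 * e - 1 := ⟨(b + 1) / 3, by omega⟩
      have : 1 - 4 * c' + (3 * e - 1) ^ 2 - (3 * e - 1) * 1 =
        3 - 4 * c' + 3 * (3 * e ^ 2 - 3 * e) := by ring
      rw [this]
      omega
  · obtain ⟨e, rfl⟩ := h3
    obtain ⟨f, rfl⟩ : ∃ f, c' = 9 * f + 3 := ⟨(c' - 3) / 9, by omega⟩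
    exact ⟨-1 - 4 * f + e ^ 2 - e, 2, -9 - 24 * f + 6 * e ^ 2, by ring⟩

/-- the case of discriminant `2 a ^ 2` and a class with coprime product -/
theorem solCoprime (a b c : ℤ) (h2 : c % 2 = 0) (hab : IsCoprime b a) :
    ∃ x y m : ℤ, 2 * (2 * a ^ 2 * x ^ 2 + 2 * b * (x * y) + c * y ^ 2) = m ^ 2 + 3 := by
  obtain ⟨c', rfl⟩ : ∃ c', c = 2 * c' := ⟨c / 2, by omega⟩
  obtain ⟨r, s, hrs⟩ := hab
  obtain ⟨y, k, hy⟩ : ∃ y k, b * y = 1 + a + 2 * (a * k) := by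
    obtain ⟨t, ht | ht⟩ := Int.even_or_odd' a
    · have hb : b % 2 = 1 := by
        by_contra hb
        obtain ⟨e, rfl⟩ : ∃ e, b = 2 * e := ⟨b / 2, by omega⟩
        rw [ht] at hrs
        have : 2 * (r * e + s * t) = 1 := by linear_combination hrs
        omega
      obtain ⟨e, rfl⟩ : ∃ e, b = 2 * e + 1 := ⟨b / 2, by omega⟩
      exact ⟨r * (1 + a) + a * s * (1 + a), s * (1 + a) * e, by
        linear_combination (1 + a) * hrs⟩
    · refine ⟨r * (1 + a), -s * (t + 1), ?_⟩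
      rw [ht] at hrs ⊢
      linear_combination (1 + (2 * t + 1)) * hrs
  refine ⟨1 + k ^ 2 + k - c' * y ^ 2, y,
    1 + 2 * k + 2 * a * (1 + k ^ 2 + k - c' * y ^ 2), ?_⟩
  linear_combination (4 * (1 + k ^ 2 + k - c' * y ^ 2)) * hy

variable {X : CubicFourfold} {H : H4 X}

/-- the values of the discriminant on the span of two classes -/
theorem disc_comb (hH : H.IsCohomology) (u T : Fin 23 → ℤ) (x y : ℤ) :
    H.disc (x • u + y • T) = H.disc u * x ^ 2 + 2 * bil H u T * (x * y) + H.disc T * y ^ 2 := by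
  rw [← bil_self hH, ← bil_self hH u, ← bil_self hH T]
  simp only [map_add, LinearMap.add_apply, map_zsmul, LinearMap.smul_apply, smul_eq_mul,
    bil_comm hH T u]
  ring

/-- from a square to a discriminant -/
theorem value_of_sq (hH : H.IsCohomology) {v : Fin 23 → ℤ} {m : ℤ}
    (h : 2 * H.disc v = m ^ 2 + 3) : ∃ n : ℤ, H.disc v = 2 * n ^ 2 + 2 * n + 2 := by
  have h2 := disc_even hH v
  obtain ⟨n, hn | hn⟩ := Int.even_or_odd' m
  · exfalso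
    have h3 : m ^ 2 = 4 * n ^ 2 := by rw [hn]; ring
    omega
  · refine ⟨n, ?_⟩
    have h3 : m ^ 2 = 4 * n ^ 2 + 4 * n + 1 := by rw [hn]; ring
    omega

/-- **Discriminant `8`**: a class whose discriminant is not divisible by `4` suffices. -/
theorem value8 (hH : H.IsCohomology) {u T : Fin 23 → ℤ} (hu : H.IsHodge u) (hT : H.IsHodge T)
    (h8 : H.disc u = 8) (h4 : ¬ 4 ∣ H.disc T) :
    ∃ (v : Fin 23 → ℤ) (n : ℤ), H.IsHodge v ∧ H.disc v = 2 * n ^ 2 + 2 * n + 2 := by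
  have h2 := disc_even hH T
  have key : ∃ x y m : ℤ, 2 * H.disc (x • u + y • T) = m ^ 2 + 3 := by
    simp only [disc_comb hH, h8]
    obtain ⟨b, hb | hb⟩ := Int.even_or_odd' (bil H u T)
    · rw [hb]
      exact sol8 b _ (by omega)
    · obtain ⟨x, y, m, h⟩ := solCoprime 2 (bil H u T) (H.disc T) h2
        ⟨1, -b, by rw [hb]; ring⟩
      exact ⟨x, y, m, by rw [← h]; ring⟩
  obtain ⟨x, y, m, h⟩ := key
  obtain ⟨n, hn⟩ := value_of_sq hH h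
  exact ⟨_, n, H.isHodge_add (H.isHodge_smul _ hu) (H.isHodge_smul _ hT), hn⟩

/-- **Discriminant `18`**: a class whose discriminant is not divisible by `3`, or congruent to `6`
modulo `9`, suffices. -/
theorem value18 (hH : H.IsCohomology) {u T : Fin 23 → ℤ} (hu : H.IsHodge u) (hT : H.IsHodge T)
    (h18 : H.disc u = 18) (h3 : ¬ 3 ∣ H.disc T ∨ H.disc T % 9 = 6) :
    ∃ (v : Fin 23 → ℤ) (n : ℤ), H.IsHodge v ∧ H.disc v = 2 * n ^ 2 + 2 * n + 2 := by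
  have h2 := disc_even hH T
  have h5 := disc_mod_three (H := H) T
  have key : ∃ x y m : ℤ, 2 * H.disc (x • u + y • T) = m ^ 2 + 3 := by
    simp only [disc_comb hH, h18]
    by_cases hb : 3 ∣ bil H u T
    · obtain ⟨b, hb⟩ := hb
      rw [hb]
      exact sol18 b _ h2 (by omega)
    · obtain ⟨x, y, m, h⟩ := solCoprime 3 (bil H u T) (H.disc T) h2 (by
        rw [isCoprime_comm]
        exact (Prime.coprime_iff_not_dvd Int.prime_three).2 hb)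
      exact ⟨x, y, m, by rw [← h]; ring⟩
  obtain ⟨x, y, m, h⟩ := key
  obtain ⟨n, hn⟩ := value_of_sq hH h
  exact ⟨_, n, H.isHodge_add (H.isHodge_smul _ hu) (H.isHodge_smul _ hT), hn⟩

/-- **Discriminant `2 a ^ 2` and a class with coprime product.** -/
theorem valueCoprime (hH : H.IsCohomology) {u T : Fin 23 → ℤ} {a : ℤ} (hu : H.IsHodge u)
    (hT : H.IsHodge T) (hua : H.disc u = 2 * a ^ 2) (hc : IsCoprime (bil H u T) a) :
    ∃ (v : Fin 23 → ℤ) (n : ℤ), H.IsHodge v ∧ H.disc v = 2 * n ^ 2 + 2 * n + 2 := by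
  obtain ⟨x, y, m, h⟩ := solCoprime a (bil H u T) (H.disc T) (disc_even hH T) hc
  have h1 : 2 * H.disc (x • u + y • T) = m ^ 2 + 3 := by
    rw [disc_comb hH, hua, ← h]
  obtain ⟨n, hn⟩ := value_of_sq hH h1
  exact ⟨_, n, H.isHodge_add (H.isHodge_smul _ hu) (H.isHodge_smul _ hT), hn⟩

end Pool.Agent.Helper56K9.GS
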