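import Pool.Agent.Helper56K9.GS.Rank
import Pool.Agent.Helper56K9.GS.Explicit

/-!
# The equivalences
-/

set_option autoImplicit false

namespace Pool.Agent.Helper56K9.GS

open Pool.Agent.Y95.Q Pool.Agent.Y95.Q.H4 Pool.Agent.X328.CF

variable {X : CubicFourfold} {H : H4 X}

/-- the condition of Galkin and Shinder -/
def HSq (H : H4 X) : Prop :=
  ∃ d, (∃ a n : ℤ, a ^ 2 * d = 2 * n ^ 2 + 2 * n + 2) ∧
    ∃ v, H.IsHodge v ∧ H.Saturated v ∧ H.disc v = d

/-- the condition of Hassett and Kuznetsov -/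
def K3 (H : H4 X) : Prop := ∃ d, Admissible d ∧ ∃ v, H.IsHodge v ∧ H.Saturated v ∧ H.disc v = d

theorem pos_of_value {n d : ℤ} (h : d = 2 * n ^ 2 + 2 * n + 2) : 0 < d := by
  rw [h]
  nlinarith [sq_nonneg (2 * n + 1)]

theorem hSq_of_value (hH : H.IsCohomology) {v : Fin 23 → ℤ} {n : ℤ} (hv : H.IsHodge v)
    (h : H.disc v = 2 * n ^ 2 + 2 * n + 2) : HSq H := by
  obtain ⟨w, m, hm, hw, hs, hd⟩ := exists_sat hH hv (pos_of_value h)
  exact ⟨H.disc w, ⟨m, n, by rw [← h, hd]⟩, w, hw, hs, rfl⟩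

theorem HSq.k3 (hH : H.IsCohomology) (h : HSq H) : K3 H := by
  obtain ⟨d, ⟨a, n, hd⟩, v, hv, hs, rfl⟩ := h
  have h0 : 0 < H.disc v := by
    have h1 : 0 < a ^ 2 * H.disc v := pos_of_value hd
    have h2 := disc_nonneg hH hv
    rcases h2.lt_or_eq with h3 | h3
    · exact h3
    · rw [← h3, mul_zero] at h1
      omega
  exact ⟨H.disc v, ⟨hH.six_lt hv h0, four_not_dvd hd, nine_not_dvd hd,
    fun p hp hp2 hpd => prime_mod hd hp hp2 hpd⟩, v, hv, hs, rfl⟩

theorem mod_three {n : ℕ} (hn : n ≠ 0) (h : ∀ p : ℕ, p.Prime → p ∣ n → p % 3 = 1) :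
    n % 3 = 1 := by
  induction n using Nat.strong_induction_on with
  | _ n ih =>
    by_cases h1 : n = 1
    · omega
    obtain ⟨p, hp, m, rfl⟩ := Nat.exists_prime_and_dvd h1
    have hm0 : m ≠ 0 := by
      rintro rfl
      simp at hn
    have h3 := ih m (by
      have := hp.two_le
      nlinarith [Nat.pos_of_ne_zero hm0]) hm0
      fun q hq hqm => h q hq (hqm.mul_left p)
    rw [Nat.mul_mod, h p hp (Dvd.intro _ rfl), h3]

theorem K3.congruences (hH : H.IsCohomology) (h : K3 H) : Congruences H := by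
  obtain ⟨d, ⟨h6, h4, h9, hp⟩, v, hv, -, rfl⟩ := h
  have h2 := disc_even hH v
  refine ⟨⟨v, hv, h4⟩, ⟨v, hv, ?_⟩, fun p hpp hp2 hp3 => ⟨v, hv, fun hd => hp p hpp hp2 hd hp3⟩⟩
  by_cases h3 : 3 ∣ H.disc v
  · right
    obtain ⟨e, he⟩ : ∃ e, H.disc v = 6 * e := ⟨H.disc v / 6, by omega⟩
    have he0 : 0 < e := by omega
    have h7 : e.natAbs % 3 = 1 := by
      refine mod_three (by omega) fun p hpp hpe => ?_
      have hpe' : (p : ℤ) ∣ e := Int.natCast_dvd.2 hpe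
      have hp2 : p ≠ 2 := by
        rintro rfl
        obtain ⟨f, rfl⟩ := hpe'
        exact h4 ⟨3 * f, by rw [he]; push_cast; ring⟩
      have hp3 : p ≠ 3 := by
        rintro rfl
        obtain ⟨f, rfl⟩ := hpe'
        exact h9 ⟨2 * f, by rw [he]; push_cast; ring⟩
      have h10 := hp p hpp hp2 (he ▸ hpe'.mul_left 6)
      have h11 : ¬ 3 ∣ p := fun h =>
        hp3 ((Nat.prime_dvd_prime_iff_eq Nat.prime_three hpp).1 h).symm
      omega
    omega
  · exact Or.inl h3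

/-- **Equivalence for the rank at least five.** -/
theorem hSq_of_rank (hH : H.IsCohomology) (hr : 5 ≤ H.rank) (hC : Congruences H) : HSq H := by
  obtain ⟨u, k, hu, hk, hk2⟩ := exists_iso hH hr
  obtain ⟨a, haH, ha', ha⟩ := exists_orth hH (k := 1) ![u] (by omega)
  obtain ⟨b, hbH, hb', hb⟩ := exists_orth hH (k := 2) ![u, a] (by omega)
  obtain ⟨v, n, hv, hn⟩ := exists_value hH hC hk hu hk2 haH hbH (ha' 0) (hb' 0) (hb' 1)
    ha.ne' hb.ne'
  exact hSq_of_value hH hv hn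

/-- **Equivalence for the rank at least four, and a class of discriminant `2 a ^ 2`.** -/
theorem hSq_of_iso (hH : H.IsCohomology) (hr : 4 ≤ H.rank) {u : Fin 23 → ℤ} {k : ℤ}
    (hu : H.IsHodge u) (hk : k ≠ 0) (hk2 : 2 * H.disc u = k ^ 2) (hC : Congruences H) :
    HSq H := by
  obtain ⟨a, haH, ha', ha⟩ := exists_orth hH (k := 1) ![u] (by omega)
  obtain ⟨b, hbH, hb', hb⟩ := exists_orth hH (k := 2) ![u, a] (by omega)
  obtain ⟨v, n, hv, hn⟩ := exists_value hH hC hk hu hk2 haH hbH (ha' 0) (hb' 0) (hb' 1)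
    ha.ne' hb.ne'
  exact hSq_of_value hH hv hn

end Pool.Agent.Helper56K9.GS
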