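import Pool.Agent.Helper56K9.GS.Disc
import Pool.Agent.Y95.Q.Mod

/-!
# Reduction modulo a prime number; the rank at least thirteen
-/

set_option autoImplicit false

namespace Pool.Agent.Helper56K9.GS

open Pool.Agent.Y95.Q Pool.Agent.Y95.Q.H4 Pool.Agent.X328.CF Module

variable {X : CubicFourfold} {H : H4 X} {p : ℕ}

/-- the reduction modulo `p` -/
def redp (p : ℕ) : (Fin 23 → ℤ) →+ (Fin 23 → ZMod p) where
  toFun v i := (v i : ZMod p)
  map_zero' := by ext i; simp
  map_add' u v := by ext i; simp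

theorem redp_apply (v : Fin 23 → ℤ) (i : Fin 23) : redp p v i = (v i : ZMod p) := rfl

theorem redp_smul (n : ℤ) (v : Fin 23 → ℤ) : redp p (n • v) = (n : ZMod p) • redp p v := by
  ext i
  simp [redp_apply]

theorem exists_of_redp {v : Fin 23 → ℤ} (h : redp p v = 0) : ∃ w, v = (p : ℤ) • w := by
  refine ⟨fun i => v i / p, ?_⟩
  ext i
  have h1 : (v i : ZMod p) = 0 := congrFun h i
  have h2 : (p : ℤ) ∣ v i := (ZMod.intCast_zmod_eq_zero_iff_dvd (v i) p).1 h1
  rw [Pi.smul_apply, smul_eq_mul]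
  exact (Int.mul_ediv_cancel' h2).symm

/-- the intersection form modulo `p` -/
noncomputable def Bp (H : H4 X) (p : ℕ) : LinearMap.BilinForm (ZMod p) (Fin 23 → ZMod p) :=
  Matrix.toBilin' (H.B.map (Int.castRingHom (ZMod p)))

theorem Bp_redp (v w : Fin 23 → ℤ) : Bp H p (redp p v) (redp p w) = (H.ip v w : ZMod p) := by
  rw [Bp, Matrix.toBilin'_apply]
  simp only [ip, Int.cast_sum, Int.cast_mul, redp_apply, Matrix.map_apply, eq_intCast]

/-- the Hodge classes modulo `p` -/
def Wp (H : H4 X) (p : ℕ) : Submodule (ZMod p) (Fin 23 → ZMod p) :=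
  AddSubgroup.toZModSubmodule p (H.hodge.toAddSubgroup.map (redp p))

theorem mem_Wp {w : Fin 23 → ZMod p} : w ∈ Wp H p ↔ ∃ v, H.IsHodge v ∧ redp p v = w := Iff.rfl

theorem rank_le [hp : Fact p.Prime] : H.rank ≤ finrank (ZMod p) (Wp H p) := by
  classical
  rw [rank_eq]
  let b := Module.finBasis ℤ H.hodge
  have hp0 : (p : ℤ) ≠ 0 := by exact_mod_cast hp.out.ne_zero
  let f : Fin (finrank ℤ H.hodge) → Wp H p := fun i => ⟨redp p (b i : Fin 23 → ℤ), _, (b i).2, rfl⟩
  have hf : LinearIndependent (ZMod p) f := by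
    rw [Fintype.linearIndependent_iff]
    intro c hc i
    let x : H.hodge := ∑ i, ((c i).val : ℤ) • b i
    have h1 : redp p (x : Fin 23 → ℤ) = 0 := by
      have hc' := congrArg Subtype.val hc
      rw [Submodule.coe_zero, Submodule.coe_sum] at hc'
      rw [← hc']
      simp only [x, Submodule.coe_sum, Submodule.coe_smul, map_sum]
      refine Finset.sum_congr rfl fun i _ => ?_
      rw [redp_smul]
      simp [f]
    obtain ⟨w, hw⟩ := exists_of_redp h1
    have hwH : H.IsHodge w := H.isHodge_of_smul hp0 (by rw [← hw]; exact x.2)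
    let w' : H.hodge := ⟨w, hwH⟩
    have h2 : x = (p : ℤ) • w' := Subtype.ext hw
    have h3 : b.repr x i = ((c i).val : ℤ) := by
      simp only [x, map_sum, map_smul, Finsupp.coe_finsetSum, Finset.sum_apply,
        Finsupp.smul_apply, Basis.repr_self, smul_eq_mul, Finsupp.single_apply]
      rw [Finset.sum_eq_single i]
      · simp
      · intro j _ hj
        simp [hj]
      · simp
    have h4 : b.repr x i = p * b.repr w' i := by
      rw [h2, map_smul, Finsupp.smul_apply, smul_eq_mul]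
    have h5 : ((c i).val : ℤ) = p * b.repr w' i := h3.symm.trans h4
    have h6 : (((c i).val : ℤ) : ZMod p) = c i := by simp
    rw [← h6, h5]
    push_cast
    rw [ZMod.natCast_self, zero_mul]
  have h1 := hf.fintype_card_le_finrank
  rwa [Fintype.card_fin] at h1

theorem Bp_nondegenerate [Fact p.Prime] (hH : H.IsCohomology) : (Bp H p).Nondegenerate := by
  have h1 : (H.B.map (Int.castRingHom (ZMod p))).det ≠ 0 := by
    have h2 : (H.B.map (Int.castRingHom (ZMod p))).det = (Int.castRingHom (ZMod p)) H.B.det := by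
      rw [RingHom.map_det]
      rfl
    rw [h2]
    exact (hH.unimodular.map _).ne_zero
  exact LinearMap.BilinForm.nondegenerate_toBilin'_of_det_ne_zero' _ h1

theorem finrank_orth_le [Fact p.Prime] (hH : H.IsCohomology) :
    finrank (ZMod p) ((Bp H p).orthogonal (Wp H p)) ≤ 23 - H.rank := by
  rw [LinearMap.BilinForm.finrank_orthogonal (Bp_nondegenerate hH), finrank_fin_fun]
  have := rank_le (H := H) (p := p)
  omega

/-- the case of a prime number different from three -/
theorem rank_le_of_bil [hp : Fact p.Prime] (hp3 : p ≠ 3) (hH : H.IsCohomology)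
    (h : ∀ v w, H.IsHodge v → H.IsHodge w → (p : ℤ) ∣ bil H v w) : H.rank ≤ 12 := by
  have h3 : (3 : ZMod p) ≠ 0 := by
    intro h0
    have h1 : ((3 : ℕ) : ZMod p) = 0 := by exact_mod_cast h0
    rw [ZMod.natCast_eq_zero_iff] at h1
    exact hp3 ((Nat.prime_dvd_prime_iff_eq hp.out Nat.prime_three).1 h1)
  let hb := redp p H.h
  let θ : (Fin 23 → ZMod p) →ₗ[ZMod p] (Fin 23 → ZMod p) :=
    (3 : ZMod p) • LinearMap.id - (LinearMap.flip (Bp H p) hb).smulRight hb
  have hθ : ∀ v, θ (redp p v) = redp p ((3 : ℤ) • v - H.ip v H.h • H.h) := by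
    intro v
    simp only [θ, LinearMap.sub_apply, LinearMap.smul_apply, LinearMap.id_apply,
      LinearMap.smulRight_apply, LinearMap.flip_apply, hb, Bp_redp, map_sub, redp_smul]
    push_cast
    rfl
  let θ' : Wp H p →ₗ[ZMod p] (Bp H p).orthogonal (Wp H p) :=
    (θ.comp (Wp H p).subtype).codRestrict _ (by
      rintro ⟨w, v, hv, rfl⟩
      rw [LinearMap.BilinForm.mem_orthogonal_iff]
      rintro n ⟨u, hu, rfl⟩
      change Bp H p (redp p u) (θ (redp p v)) = 0
      rw [hθ, Bp_redp, ZMod.intCast_zmod_eq_zero_iff_dvd]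
      have h5 := h u v hu hv
      rw [bil_apply] at h5
      convert h5 using 1
      simp only [ip_sub_right, ip_smul_right]
      ring)
  have h6 := θ'.finrank_range_add_finrank_ker
  have h7 : finrank (ZMod p) (LinearMap.range θ') ≤ 23 - H.rank :=
    (Submodule.finrank_le _).trans (finrank_orth_le hH)
  have h8 : finrank (ZMod p) (LinearMap.ker θ') ≤ 1 := by
    let ψ : LinearMap.ker θ' →ₗ[ZMod p] ZMod p :=
      (LinearMap.flip (Bp H p) hb).comp ((Wp H p).subtype.comp (LinearMap.ker θ').subtype)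
    have h9 : Function.Injective ψ := by
      rw [← LinearMap.ker_eq_bot, LinearMap.ker_eq_bot']
      intro a ha
      have h10 : θ ((a : Wp H p) : Fin 23 → ZMod p) = 0 :=
        congrArg Subtype.val (LinearMap.mem_ker.1 a.2)
      have h11 : (Bp H p) ((a : Wp H p) : Fin 23 → ZMod p) hb = 0 := ha
      have h12 : (3 : ZMod p) • ((a : Wp H p) : Fin 23 → ZMod p) = 0 := by
        have h13 : θ ((a : Wp H p) : Fin 23 → ZMod p) =
            (3 : ZMod p) • ((a : Wp H p) : Fin 23 → ZMod p) -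
            (Bp H p) ((a : Wp H p) : Fin 23 → ZMod p) hb • hb := rfl
        rw [h10, h11, zero_smul, sub_zero] at h13
        exact h13.symm
      exact Subtype.ext (Subtype.ext ((smul_eq_zero.1 h12).resolve_left h3))
    have h14 := LinearMap.finrank_le_finrank_of_injective h9
    rwa [finrank_self] at h14
  have h15 := rank_le (H := H) (p := p)
  omega

theorem dec1 : ∀ β b : ZMod 3, b ≠ 2 → b + 2 * β + 0 ≠ 2 → b - 2 * β + 0 ≠ 2 → β = 0 := by
  decide

theorem dec2 : ∀ b : ZMod 3, b + 2 * 0 + 1 ≠ 2 → b ≠ 2 → b = 0 := by decide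

theorem dec3 : ∀ b : ZMod 3, b ≠ 1 → b ≠ 2 → b = 0 := by decide

/-- the case of the prime number three -/
theorem rank_le_of_three (hH : H.IsCohomology)
    (h : ∀ v, H.IsHodge v → H.ip v v % 3 ≠ 2) : H.rank ≤ 12 := by
  have : Fact (Nat.Prime 3) := ⟨Nat.prime_three⟩
  -- squares
  have hq : ∀ w ∈ Wp H 3, Bp H 3 w w ≠ 2 := by
    rintro w ⟨v, hv, rfl⟩ h2
    change Bp H 3 (redp 3 v) (redp 3 v) = 2 at h2
    rw [Bp_redp] at h2
    have h3 : ((H.ip v v - 2 : ℤ) : ZMod 3) = 0 := by
      push_cast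
      rw [h2, sub_self]
    rw [ZMod.intCast_zmod_eq_zero_iff_dvd] at h3
    have := h v hv
    omega
  have hsym : ∀ x ∈ Wp H 3, ∀ y ∈ Wp H 3, Bp H 3 x y = Bp H 3 y x := by
    rintro x ⟨v, hv, rfl⟩ y ⟨w, hw, rfl⟩
    change Bp H 3 (redp 3 v) (redp 3 w) = Bp H 3 (redp 3 w) (redp 3 v)
    rw [Bp_redp, Bp_redp, hH.comm]
  have e1 : ∀ w ∈ Wp H 3, ∀ w' ∈ Wp H 3,
      Bp H 3 (w' + w) (w' + w) = Bp H 3 w' w' + 2 * Bp H 3 w w' + Bp H 3 w w := by
    intro w hw w' hw'
    simp only [map_add, LinearMap.add_apply, hsym w' hw' w hw]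
    ring
  have e2 : ∀ w ∈ Wp H 3, ∀ w' ∈ Wp H 3,
      Bp H 3 (w' - w) (w' - w) = Bp H 3 w' w' - 2 * Bp H 3 w w' + Bp H 3 w w := by
    intro w hw w' hw'
    simp only [map_sub, LinearMap.sub_apply, hsym w' hw' w hw]
    ring
  have key : ∀ w ∈ Wp H 3, Bp H 3 w w = 0 → ∀ w' ∈ Wp H 3, Bp H 3 w w' = 0 := by
    intro w hw h0 w' hw'
    have n1 := hq _ (Submodule.add_mem _ hw' hw)
    have n2 := hq _ (Submodule.sub_mem _ hw' hw)
    have n4 := hq _ hw'
    rw [e1 w hw w' hw', h0] at n1
    rw [e2 w hw w' hw', h0] at n2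
    exact dec1 _ _ n4 n1 n2
  obtain ⟨ψ, hψ⟩ : ∃ ψ : Wp H 3 →ₗ[ZMod 3] ZMod 3, ∀ w : Wp H 3, ψ w = 0 →
      Bp H 3 (w : Fin 23 → ZMod 3) w = 0 := by
    by_cases hne : ∃ w₁ ∈ Wp H 3, Bp H 3 w₁ w₁ = 1
    · obtain ⟨w₁, hw₁, h1⟩ := hne
      refine ⟨(Bp H 3 w₁).comp (Wp H 3).subtype, fun w hw => ?_⟩
      have hw' : Bp H 3 w₁ (w : Fin 23 → ZMod 3) = 0 := hw
      have n1 := hq _ (Submodule.add_mem _ w.2 hw₁)
      have n2 := hq _ w.2
      rw [e1 w₁ hw₁ w w.2, hw', h1] at n1
      exact dec2 _ n1 n2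
    · push Not at hne
      refine ⟨0, fun w _ => ?_⟩
      have n1 := hne w w.2
      have n2 := hq _ w.2
      exact dec3 _ n1 n2
  have h6 := ψ.finrank_range_add_finrank_ker
  have h7 : finrank (ZMod 3) (LinearMap.range ψ) ≤ 1 :=
    (Submodule.finrank_le _).trans (finrank_self _).le
  have h8 : finrank (ZMod 3) (LinearMap.ker ψ) ≤ 23 - H.rank := by
    let f : LinearMap.ker ψ →ₗ[ZMod 3] (Bp H 3).orthogonal (Wp H 3) :=
      ((Wp H 3).subtype.comp (LinearMap.ker ψ).subtype).codRestrict _ (by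
        intro w
        rw [LinearMap.BilinForm.mem_orthogonal_iff]
        intro n hn
        change Bp H 3 n ((w : Wp H 3) : Fin 23 → ZMod 3) = 0
        rw [hsym n hn _ (w : Wp H 3).2]
        exact key _ (w : Wp H 3).2 (hψ _ (LinearMap.mem_ker.1 w.2)) n hn)
    have hf : Function.Injective f := by
      intro x y hxy
      have h9 : ((f x : (Bp H 3).orthogonal (Wp H 3)) : Fin 23 → ZMod 3) = f y := by rw [hxy]
      exact Subtype.ext (Subtype.ext h9)
    exact (LinearMap.finrank_le_finrank_of_injective hf).trans (finrank_orth_le hH)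
  have h15 := rank_le (H := H) (p := 3)
  omega

/-- **The congruences hold if the rank is at least thirteen.** -/
theorem congruences_of_rank (hH : H.IsCohomology) (hr : 13 ≤ H.rank) : Congruences H := by
  refine ⟨?_, ?_, ?_⟩
  · by_contra hno
    push Not at hno
    have : Fact (Nat.Prime 2) := ⟨Nat.prime_two⟩
    have := rank_le_of_bil (p := 2) (by norm_num) hH (fun v w hv hw => by
      have h1 := hno v hv
      have h2 := hno w hw
      have h3 := hno _ (H.isHodge_add hv (H.isHodge_smul 1 hw))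
      rw [disc_add_smul hH] at h3
      push_cast
      omega)
    omega
  · by_contra hno
    push Not at hno
    have := rank_le_of_three hH (fun v hv => by
      obtain ⟨h1, h2⟩ := hno v hv
      obtain ⟨q, hq⟩ := h1
      have h3 : (3 : ℤ) ∣ H.ip H.h v := by
        refine Int.prime_three.dvd_of_dvd_pow (n := 2) ?_
        refine ⟨H.ip v v - q, ?_⟩
        unfold disc at hq
        linarith
      obtain ⟨e, he⟩ := h3
      unfold disc at h2
      rw [he] at h2
      have h4 : (3 * e) ^ 2 = 9 * e ^ 2 := by ring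
      rw [h4] at h2
      omega)
    omega
  · intro p hp hp2 hp3
    by_contra hno
    push Not at hno
    have : Fact p.Prime := ⟨hp⟩
    have hpZ : Prime (p : ℤ) := Nat.prime_iff_prime_int.1 hp
    have := rank_le_of_bil (p := p) (by omega) hH (fun v w hv hw => by
      have h1 := hno v hv
      have h2 := hno w hw
      have h3 := hno _ (H.isHodge_add hv (H.isHodge_smul 1 hw))
      rw [disc_add_smul hH] at h3
      have h4 : (p : ℤ) ∣ 2 * bil H v w := by
        have h5 := dvd_sub (dvd_sub h3 h1) h2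
        have h6 : H.disc v + 2 * 1 * bil H v w + 1 ^ 2 * H.disc w - H.disc v - H.disc w =
          2 * bil H v w := by ring
        rwa [h6] at h5
      refine (hpZ.dvd_or_dvd h4).resolve_left fun h5 => hp2 ?_
      exact (Nat.prime_dvd_prime_iff_eq hp Nat.prime_two).1 (by exact_mod_cast h5))
    omega

end Pool.Agent.Helper56K9.GS
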