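import Pool.Agent.Helper56K9.GS.Equiv
import Pool.Agent.Helper56K9.GS.ModP

/-!
# Cubic fourfolds which contain a plane
-/

set_option autoImplicit false

namespace Pool.Agent.Helper56K9.GS

open Pool.Agent.Y95.Q Pool.Agent.Y95.Q.H4 Pool.Agent.X328.CF

variable {X : CubicFourfold} {H : H4 X}

theorem disc_plane (hH : H.IsCohomology) (P : X.Plane) : H.disc (H.cl P) = 8 := by
  obtain ⟨-, h1, h2⟩ := (hH.cl_range _).1 ⟨P, rfl⟩
  rw [disc, h2, hH.comm H.h, h1]
  norm_num

/-- three divides the products of the classes whose discriminant is divisible by three -/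
theorem three_dvd_bil {u T : Fin 23 → ℤ} (hH : H.IsCohomology) (hT : 3 ∣ H.disc T) :
    3 ∣ bil H u T := by
  have h3 : (3 : ℤ) ∣ H.ip H.h T := by
    obtain ⟨q, hq⟩ := hT
    refine Int.prime_three.dvd_of_dvd_pow (n := 2) ?_
    refine ⟨H.ip T T - q, ?_⟩
    unfold disc at hq
    linarith
  rw [bil_apply, hH.comm T H.h]
  exact dvd_sub (Dvd.intro _ rfl) (h3.mul_left _)

/-- the conclusion for a plane and an odd class -/
theorem rational_of_odd (hH : H.IsCohomology) {P : X.Plane} {T : Fin 23 → ℤ} (hT : H.IsHodge T)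
    (hodd : ¬ 2 ∣ bil H (H.cl P) T) : X.IsRational ∧ HSq H := by
  obtain ⟨hPh, h1, -⟩ := (hH.cl_range _).1 ⟨P, rfl⟩
  have h8 := disc_plane hH P
  constructor
  · refine hH.hassett P T hT ?_
    rw [bil_apply, h1, hH.comm (H.cl P) T] at hodd
    rw [ip_sub_right]
    rw [Int.odd_iff]
    omega
  · obtain ⟨v, n, hv, hn⟩ := valueCoprime (a := 2) hH hPh hT (by rw [h8]; norm_num)
      (by
        rw [isCoprime_comm]
        exact (Prime.coprime_iff_not_dvd Int.prime_two).2 hodd)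
    exact hSq_of_value hH hv hn

/-- squarefree discriminants -/
theorem inDivisor_of_squarefree (hH : H.IsCohomology) {v : Fin 23 → ℤ} (hv : H.IsHodge v)
    (h0 : 0 < H.disc v) (hsq : Squarefree (H.disc v)) :
    ∃ w, H.IsHodge w ∧ H.Saturated w ∧ H.disc w = H.disc v := sat_of_squarefree hH hv h0 hsq

theorem sqf14 : Squarefree (14 : ℤ) := by
  rw [← Int.squarefree_natAbs]
  decide +kernel

theorem sqf26 : Squarefree (26 : ℤ) := by
  rw [← Int.squarefree_natAbs]
  decide +kernel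

theorem sqf38 : Squarefree (38 : ℤ) := by
  rw [← Int.squarefree_natAbs]
  decide +kernel

theorem sqf42 : Squarefree (42 : ℤ) := by
  rw [← Int.squarefree_natAbs]
  decide +kernel

/-- a class of discriminant `14`, `26`, `38`, `42` -/
theorem rational_of_disc (hH : H.IsCohomology)
    (hR : ∀ d : ℤ, (d = 14 ∨ d = 26 ∨ d = 38 ∨ d = 42) →
      (∃ v, H.IsHodge v ∧ H.Saturated v ∧ H.disc v = d) → X.IsRational)
    {v : Fin 23 → ℤ} (hv : H.IsHodge v)
    (h : H.disc v = 14 ∨ H.disc v = 26 ∨ H.disc v = 38 ∨ H.disc v = 42) : X.IsRational := by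
  refine hR (H.disc v) h ?_
  refine sat_of_squarefree hH hv (by omega) ?_
  rcases h with h | h | h | h <;> rw [h]
  · exact sqf14
  · exact sqf26
  · exact sqf38
  · exact sqf42

/-- **Cubic fourfolds with a plane and a small discriminant which is not divisible by four.** -/
theorem rational_of_plane (hH : H.IsCohomology)
    (hR : ∀ d : ℤ, (d = 14 ∨ d = 26 ∨ d = 38 ∨ d = 42) →
      (∃ v, H.IsHodge v ∧ H.Saturated v ∧ H.disc v = d) → X.IsRational)
    (P : X.Plane) {T : Fin 23 → ℤ} (hT : H.IsHodge T) (h4 : ¬ 4 ∣ H.disc T)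
    (h49 : H.disc T ≤ 49) : X.IsRational := by
  obtain ⟨hPh, -, -⟩ := (hH.cl_range _).1 ⟨P, rfl⟩
  have h8 := disc_plane hH P
  by_cases hodd : 2 ∣ bil H (H.cl P) T
  swap
  · exact (rational_of_odd hH hT hodd).1
  obtain ⟨b, hb⟩ := hodd
  -- reduction
  obtain ⟨k, hk1, hk2⟩ : ∃ k : ℤ, -2 ≤ b + 4 * k ∧ b + 4 * k ≤ 2 :=
    ⟨-((b + 2) / 4), by omega, by omega⟩
  have hT' : H.IsHodge (k • H.cl P + (1 : ℤ) • T) :=
    H.isHodge_add (H.isHodge_smul _ hPh) (H.isHodge_smul _ hT)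
  have hd := disc_comb hH (H.cl P) T k 1
  have hbT : bil H (H.cl P) (k • H.cl P + (1 : ℤ) • T) = 2 * (b + 4 * k) := by
    rw [map_add, map_zsmul, map_zsmul, bil_self hH, h8, hb]
    simp only [smul_eq_mul]
    ring
  rw [h8, hb] at hd
  have e1 : 8 * k ^ 2 + 2 * (2 * b) * (k * 1) + H.disc T * 1 ^ 2 =
      H.disc T + 4 * (k * (b + 2 * k) + k * 0) + 0 := by ring
  have h2 := disc_even hH T
  have hle : k * (b + 2 * k) ≤ 0 := by
    have e2 : 8 * (k * (b + 2 * k)) = (b + 4 * k) ^ 2 - b ^ 2 := by ring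
    by_contra hpos
    have h5 : (b + 4 * k) ^ 2 ≤ 4 := by nlinarith
    have h6 : b ^ 2 < 4 := by nlinarith
    have h7 : -2 < b ∧ b < 2 := by constructor <;> nlinarith
    have h9 : k = 0 := by omega
    rw [h9] at hpos
    simp at hpos
  rw [e1] at hd
  set c := H.disc (k • H.cl P + (1 : ℤ) • T) with hc
  have hc1 : c ≤ 49 := by linarith
  have hc2 : ¬ 4 ∣ c := by
    rw [hd]
    omega
  have hc3 := disc_mod_three (H := H) (k • H.cl P + (1 : ℤ) • T)
  rw [← hc] at hc3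
  have hc4 := disc_even hH (k • H.cl P + (1 : ℤ) • T)
  rw [← hc] at hc4
  have hc5 : 0 ≤ c := disc_nonneg hH hT'
  have hc6 : 6 < c := hH.six_lt hT' (by rw [← hc]; omega)
  have hbig : c = 14 ∨ c = 26 ∨ c = 38 ∨ c = 42 ∨ c = 18 ∨ c = 30 := by omega
  by_cases hgood : c = 14 ∨ c = 26 ∨ c = 38 ∨ c = 42
  · exact rational_of_disc hH hR hT' (hc ▸ hgood)
  · have h3 : 3 ∣ c := by omega
    have h33 := three_dvd_bil (u := H.cl P) hH (hc ▸ h3)
    rw [hbT] at h33
    have hb0 : b + 4 * k = 0 := by omega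
    have hsum := disc_comb hH (H.cl P) (k • H.cl P + (1 : ℤ) • T) 1 1
    rw [hbT, hb0, h8, ← hc] at hsum
    refine rational_of_disc hH hR (H.isHodge_add (H.isHodge_smul 1 hPh)
      (H.isHodge_smul 1 hT')) ?_
    rw [hsum]
    omega

end Pool.Agent.Helper56K9.GS
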