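import Pool.Agent.Helper56K9.GS.Rank3b

/-!
# The divisors `C_d`, `d = 2 * 4 ^ k`
-/

set_option autoImplicit false

namespace Pool.Agent.Helper56K9.GS

open Pool.Agent.Y95.Q Pool.Agent.Y95.Q.H4 Pool.Agent.X328.CF Module

variable {X : CubicFourfold} {H : H4 X}

/-- the classes of numbers modulo squares -/
theorem square_class {N : ℤ} (hN : 0 < N) (k : ℕ) :
    (IsSquare N ∨ ∃ (p i : ℕ) (D' : ℤ), p.Prime ∧ ¬ (p : ℤ) ∣ 2 * 2 ^ k ∧ ¬ (p : ℤ) ∣ D' ∧
      N = (p : ℤ) ^ (2 * i + 1) * D') ∨ ∃ S e : ℤ, e % 3 = 2 ∧ N = S ^ 2 * e := by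
  obtain ⟨n, rfl⟩ := Int.eq_ofNat_of_zero_le hN.le
  have hn : n ≠ 0 := by
    rintro rfl
    simp at hN
  obtain ⟨a, b, hab, hsq⟩ := Nat.sq_mul_squarefree n
  have hb : b ≠ 0 := by
    rintro rfl
    apply hn
    rw [← hab]
    ring
  by_cases hp : ∃ p : ℕ, p.Prime ∧ p ≠ 2 ∧ p ∣ a
  · obtain ⟨p, hp, hp2, a', rfl⟩ := hp
    left; right
    obtain ⟨i, b', hb', rfl⟩ := Nat.exists_eq_pow_mul_and_not_dvd hb p hp.ne_one
    have hpa : ¬ p ∣ a' := by
      rintro ⟨c, rfl⟩
      have h1 := hsq p ⟨c, by ring⟩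
      exact hp.ne_one (Nat.isUnit_iff.1 h1)
    refine ⟨p, i, ((b' ^ 2 * a' : ℕ) : ℤ), hp, ?_, ?_, ?_⟩
    · intro h
      have h1 : p ∣ 2 ^ (k + 1) := by
        have h2 : ((2 : ℤ) * 2 ^ k) = ((2 ^ (k + 1) : ℕ) : ℤ) := by push_cast; ring
        rw [h2] at h
        exact Int.natCast_dvd_natCast.1 h
      exact hp2 ((Nat.prime_dvd_prime_iff_eq hp Nat.prime_two).1 (hp.dvd_of_dvd_pow h1))
    · intro h
      rcases (Nat.Prime.dvd_mul hp).1 (Int.natCast_dvd_natCast.1 h) with h | h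
      · exact hb' (hp.dvd_of_dvd_pow h)
      · exact hpa h
    · rw [← hab]
      push_cast
      ring
  · push Not at hp
    by_cases ha : a = 1
    · left; left
      refine ⟨(b : ℤ), ?_⟩
      rw [← hab, ha]
      push_cast
      ring
    · right
      obtain ⟨p, hp1, hp2⟩ := Nat.exists_prime_and_dvd ha
      have hp3 : p = 2 := by
        by_contra h
        exact hp p hp1 h hp2
      subst hp3
      obtain ⟨a', rfl⟩ := hp2
      have ha' : a' = 1 := by
        by_contra h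
        obtain ⟨q, hq1, hq2⟩ := Nat.exists_prime_and_dvd h
        have hq3 : q = 2 := by
          by_contra h'
          exact hp q hq1 h' (hq2.mul_left _)
        subst hq3
        obtain ⟨c, rfl⟩ := hq2
        have h1 := hsq 2 ⟨c, by ring⟩
        exact absurd (Nat.isUnit_iff.1 h1) (by norm_num)
      subst ha'
      refine ⟨(b : ℤ), 2, by norm_num, ?_⟩
      rw [← hab]
      push_cast
      ring

/-- **The divisors `C_d`, `d = 2 * 4 ^ k`, for every rank.** -/
theorem hSq_pow2 (hH : H.IsCohomology) {k : ℕ} (hk : 1 ≤ k) {u v : Fin 23 → ℤ}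
    (hu : H.IsHodge u) (hsat : H.Saturated u) (hd : H.disc u = 2 * 4 ^ k) (hv : H.IsHodge v)
    (h4 : ¬ 4 ∣ H.disc v) : HSq H := by
  have h2pos : (0 : ℤ) < 2 ^ k := by positivity
  have h42 : (4 : ℤ) ^ k = (2 ^ k) ^ 2 := by
    rw [← pow_mul, mul_comm k 2, pow_mul]
    norm_num
  have hup : (0 : ℤ) < H.disc u := by rw [hd]; positivity
  have hC : Congruences H := by
    refine ⟨⟨v, hv, h4⟩, ⟨u, hu, Or.inl ?_⟩, fun p hp hp2 _ => ⟨u, hu, ?_⟩⟩
    · intro h
      rw [hd] at h
      rcases Int.prime_three.dvd_or_dvd h with h | h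
      · norm_num at h
      · have := Int.prime_three.dvd_of_dvd_pow h
        norm_num at this
    · intro h
      rw [hd] at h
      have hpZ := Nat.prime_iff_prime_int.1 hp
      have h2 : (p : ℤ) ∣ 2 := by
        rcases hpZ.dvd_or_dvd h with h | h
        · exact h
        · have h3 := hpZ.dvd_of_dvd_pow h
          have h5 : (p : ℤ) ∣ 2 ^ 2 := by norm_num; exact h3
          exact hpZ.dvd_of_dvd_pow h5
      exact hp2 ((Nat.prime_dvd_prime_iff_eq hp Nat.prime_two).1 (by exact_mod_cast h2))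
  by_cases hr : 4 ≤ H.rank
  · exact hSq_of_iso hH hr hu (k := 2 * 2 ^ k) (by positivity) (by
      rw [hd, h42]
      ring) hC
  -- the class `w = disc u • v - bil u v • u`
  set Δ := H.disc u * H.disc v - bil H u v ^ 2 with hΔ
  set w := H.disc u • v - bil H u v • u with hw
  have hwH : H.IsHodge w := H.isHodge_sub (H.isHodge_smul _ hv) (H.isHodge_smul _ hu)
  have hwd : H.disc w = H.disc u * Δ := by
    rw [← bil_self hH w]
    conv_lhs => rw [hw]
    simp only [map_sub, LinearMap.sub_apply, map_zsmul, LinearMap.smul_apply, smul_eq_mul,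
      bil_self hH, bil_comm hH v u]
    rw [hΔ]
    ring
  have hΔ0 : 0 ≤ Δ := by
    have h1 := disc_nonneg hH hwH
    rw [hwd] at h1
    exact nonneg_of_mul_nonneg_right h1 hup
  have hΔne : Δ ≠ 0 := by
    intro h0
    rw [h0, mul_zero] at hwd
    have h1 := of_disc_eq_zero hH hwH hwd
    obtain ⟨a', b', h2⟩ := hsat v (3 * H.disc u) (H.ip H.h w) (3 * bil H u v)
      (by positivity) (by
        rw [hw, smul_sub, smul_smul, smul_smul, ← hw, sub_eq_iff_eq_add] at h1
        exact h1)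
    apply h4
    have h3 : H.disc v = b' ^ 2 * H.disc u := by
      have hh : H.disc H.h = 0 := by
        rw [← bil_self hH]
        exact bil_h hH _
      rw [h2, ← bil_self hH]
      simp only [map_add, LinearMap.add_apply, map_zsmul, LinearMap.smul_apply, smul_eq_mul,
        bil_self hH, bil_h hH, bil_comm hH H.h u, hh]
      ring
    rw [h3, hd]
    obtain ⟨j, rfl⟩ := Nat.exists_eq_add_of_le' hk
    exact ⟨b' ^ 2 * (2 * 4 ^ j), by ring⟩
  refine hSq_of_three' hH (by omega) hu hv (a := 2 ^ k) h2pos.ne' (by rw [hd, h42]) hΔne ?_ hC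
  rcases square_class (N := 3 * Δ) (by omega) k with h | h
  · exact Or.inl h
  · refine Or.inr ⟨?_, h⟩
    intro h3
    have := Int.prime_three.dvd_of_dvd_pow h3
    norm_num at this

end Pool.Agent.Helper56K9.GS
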