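import Pool.Agent.Helper56K9.GS.Disc
import Pool.Agent.R847.QB.Meyer
import Pool.Agent.R847.QB.Iso
import Pool.Agent.R847.QB.Dir

/-!
# Orthogonal Hodge classes, and a Hodge class whose discriminant is twice a square
-/

set_option autoImplicit false

namespace Pool.Agent.Helper56K9.GS

open Pool.Agent.Y95.Q Pool.Agent.Y95.Q.H4 Pool.Agent.X328.CF Module

variable {X : CubicFourfold} {H : H4 X}

/-- a Hodge class orthogonal to few given classes -/
theorem exists_orth (hH : H.IsCohomology) {k : ℕ} (g : Fin k → Fin 23 → ℤ)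
    (hk : k + 2 ≤ H.rank) : ∃ a, H.IsHodge a ∧ (∀ i, bil H (g i) a = 0) ∧ 0 < H.disc a := by
  rw [rank_eq] at hk
  let φ : H.hodge →ₗ[ℤ] (Fin k → ℤ) := LinearMap.pi fun i => (bil H (g i)).comp H.hodge.subtype
  have h1 := (LinearMap.ker φ).finrank_quotient_add_finrank
  rw [LinearEquiv.finrank_eq φ.quotKerEquivRange] at h1
  have h2 : finrank ℤ (LinearMap.range φ) ≤ k := by
    have := Submodule.finrank_le (LinearMap.range φ)
    rwa [finrank_fin_fun] at this
  by_contra hno
  push Not at hno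
  have h3 : ∀ a : LinearMap.ker φ, (3 : ℤ) • ((a : H.hodge) : Fin 23 → ℤ) =
      H.ip H.h ((a : H.hodge) : Fin 23 → ℤ) • H.h := by
    intro a
    have ha := (a : H.hodge).2
    refine of_disc_eq_zero hH ha (le_antisymm (hno _ ha fun i => ?_) (disc_nonneg hH ha))
    exact congrFun (LinearMap.mem_ker.1 a.2) i
  let ψ : LinearMap.ker φ →ₗ[ℤ] ℤ :=
    { toFun := fun a => H.ip H.h ((a : H.hodge) : Fin 23 → ℤ)
      map_add' := fun a b => by
        change H.ip H.h (((a : H.hodge) : Fin 23 → ℤ) + ((b : H.hodge) : Fin 23 → ℤ)) = _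
        rw [ip_add_right]
      map_smul' := fun c a => by
        change H.ip H.h (c • ((a : H.hodge) : Fin 23 → ℤ)) = _
        rw [ip_smul_right]
        rfl }
  have h4 : Function.Injective ψ := by
    rw [← LinearMap.ker_eq_bot, LinearMap.ker_eq_bot']
    intro a ha
    have h5 := h3 a
    have h6 : H.ip H.h ((a : H.hodge) : Fin 23 → ℤ) = 0 := ha
    rw [h6, zero_smul] at h5
    have h7 : ((a : H.hodge) : Fin 23 → ℤ) = 0 := by
      ext i
      have := congrFun h5 i
      simp only [Pi.smul_apply, smul_eq_mul, Pi.zero_apply] at this ⊢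
      omega
    exact Subtype.ext (Subtype.ext h7)
  have h5 := LinearMap.finrank_le_finrank_of_injective h4
  rw [finrank_self] at h5
  omega

/-- common denominators -/
theorem exists_int_mul {n : ℕ} (x : Fin n → ℚ) :
    ∃ (D : ℤ) (y : Fin n → ℤ), D ≠ 0 ∧ ∀ i, (y i : ℚ) = D * x i := by
  obtain ⟨⟨b, hb⟩, h⟩ := IsLocalization.exist_integer_multiples_of_finite (nonZeroDivisors ℤ) x
  choose y hy using h
  refine ⟨b, y, nonZeroDivisors.ne_zero hb, fun i => ?_⟩
  have h1 := hy i
  rw [← eq_intCast (algebraMap ℤ ℚ), h1]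
  simp [Submonoid.smul_def]

/-- **By the theorem of Meyer, if the rank is at least five then some Hodge class has a discriminant
of the form `k ^ 2 / 2`.** -/
theorem exists_iso (hH : H.IsCohomology) (hr : 5 ≤ H.rank) :
    ∃ (u : Fin 23 → ℤ) (k : ℤ), H.IsHodge u ∧ k ≠ 0 ∧ 2 * H.disc u = k ^ 2 := by
  obtain ⟨a, haH, -, ha⟩ := exists_orth hH (k := 0) Fin.elim0 (by omega)
  obtain ⟨b, hbH, hb', hb⟩ := exists_orth hH (k := 1) ![a] (by omega)
  obtain ⟨c, hcH, hc', hc⟩ := exists_orth hH (k := 2) ![a, b] (by omega)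
  obtain ⟨d, hdH, hd', hd⟩ := exists_orth hH (k := 3) ![a, b, c] (by omega)
  have hab : bil H a b = 0 := hb' 0
  have hac : bil H a c = 0 := hc' 0
  have hbc : bil H b c = 0 := hc' 1
  have had : bil H a d = 0 := hd' 0
  have hbd : bil H b d = 0 := hd' 1
  have hcd : bil H c d = 0 := hd' 2
  obtain ⟨x, hx0, hx⟩ := R847.QB.meyer R847.QB.iso_ R847.QB.dir_
    ![2 * H.disc a, 2 * H.disc b, 2 * H.disc c, 2 * H.disc d, -1] (by
      intro i
      fin_cases i <;> simp <;> omega) ⟨0, by simp; omega⟩ ⟨4, by simp⟩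
  obtain ⟨D, y, hD, hy⟩ := exists_int_mul x
  have hyQ : ∑ i, ((![2 * H.disc a, 2 * H.disc b, 2 * H.disc c, 2 * H.disc d, -1] i : ℤ) : ℚ) *
      (y i : ℚ) ^ 2 = 0 := by
    have h1 : ∀ i, ((![2 * H.disc a, 2 * H.disc b, 2 * H.disc c, 2 * H.disc d, -1] i : ℤ) : ℚ) *
        (y i : ℚ) ^ 2 = (D : ℚ) ^ 2 *
        (((![2 * H.disc a, 2 * H.disc b, 2 * H.disc c, 2 * H.disc d, -1] i : ℤ) : ℚ) *
        x i ^ 2) := by
      intro i
      rw [hy i]
      ring
    rw [Finset.sum_congr rfl fun i _ => h1 i, ← Finset.mul_sum, hx, mul_zero]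
  have hyZ : 2 * (y 0 ^ 2 * H.disc a + y 1 ^ 2 * H.disc b + y 2 ^ 2 * H.disc c +
      y 3 ^ 2 * H.disc d) = y 4 ^ 2 := by
    have h1 : ∑ i, (![2 * H.disc a, 2 * H.disc b, 2 * H.disc c, 2 * H.disc d, -1] i : ℤ) *
        y i ^ 2 = 0 := by exact_mod_cast hyQ
    rw [Fin.sum_univ_five] at h1
    simp only [Matrix.cons_val] at h1
    linear_combination h1
  refine ⟨y 0 • a + y 1 • b + y 2 • c + y 3 • d, y 4, H.isHodge_add (H.isHodge_add
    (H.isHodge_add (H.isHodge_smul _ haH) (H.isHodge_smul _ hbH)) (H.isHodge_smul _ hcH))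
    (H.isHodge_smul _ hdH), ?_, ?_⟩
  · intro h4
    rw [h4] at hyZ
    have h5 : ∀ i, y i = 0 := by
      have g0 := sq_nonneg (y 0)
      have g1 := sq_nonneg (y 1)
      have g2 := sq_nonneg (y 2)
      have g3 := sq_nonneg (y 3)
      have q0 := mul_nonneg g0 ha.le
      have q1 := mul_nonneg g1 hb.le
      have q2 := mul_nonneg g2 hc.le
      have q3 := mul_nonneg g3 hd.le
      have z0 : y 0 ^ 2 * H.disc a = 0 := by linarith
      have z1 : y 1 ^ 2 * H.disc b = 0 := by linarith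
      have z2 : y 2 ^ 2 * H.disc c = 0 := by linarith
      have z3 : y 3 ^ 2 * H.disc d = 0 := by linarith
      intro i
      fin_cases i
      · exact pow_eq_zero_iff two_ne_zero |>.1 ((mul_eq_zero.1 z0).resolve_right ha.ne')
      · exact pow_eq_zero_iff two_ne_zero |>.1 ((mul_eq_zero.1 z1).resolve_right hb.ne')
      · exact pow_eq_zero_iff two_ne_zero |>.1 ((mul_eq_zero.1 z2).resolve_right hc.ne')
      · exact pow_eq_zero_iff two_ne_zero |>.1 ((mul_eq_zero.1 z3).resolve_right hd.ne')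
      · exact h4
    apply hx0
    funext i
    have h6 := hy i
    rw [h5 i, Int.cast_zero] at h6
    exact (mul_eq_zero.1 h6.symm).resolve_left (Int.cast_ne_zero.2 hD)
  · rw [← hyZ, ← bil_self hH, ← bil_self hH a, ← bil_self hH b, ← bil_self hH c,
      ← bil_self hH d]
    simp only [map_add, LinearMap.add_apply, map_zsmul, LinearMap.smul_apply, smul_eq_mul,
      bil_comm hH b a, bil_comm hH c a, bil_comm hH c b, bil_comm hH d a, bil_comm hH d b,
      bil_comm hH d c, hab, hac, hbc, had, hbd, hcd]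
    ring

end Pool.Agent.Helper56K9.GS
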