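import Pool.Agent.Helper56K9.GS.Equiv
import Pool.Agent.Helper56K9.GS.Core1

/-!
# The rank three
-/

set_option autoImplicit false

namespace Pool.Agent.Helper56K9.GS

open Pool.Agent.Y95.Q Pool.Agent.Y95.Q.H4 Pool.Agent.X328.CF Module

variable {X : CubicFourfold} {H : H4 X}

/-- three orthogonal classes -/
theorem four_le_rank (hH : H.IsCohomology) {a b c : Fin 23 → ℤ} (ha : H.IsHodge a)
    (hb : H.IsHodge b) (hc : H.IsHodge c) (hab : bil H a b = 0) (hac : bil H a c = 0)
    (hbc : bil H b c = 0) (ha0 : H.disc a ≠ 0) (hb0 : H.disc b ≠ 0) (hc0 : H.disc c ≠ 0) :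
    4 ≤ H.rank := by
  rw [rank_eq]
  let f : Fin 4 → H.hodge := ![⟨H.h, hH.h_hodge⟩, ⟨a, ha⟩, ⟨b, hb⟩, ⟨c, hc⟩]
  have hf : LinearIndependent ℤ f := by
    rw [Fintype.linearIndependent_iff]
    intro g hg
    have h1 := congrArg Subtype.val hg
    rw [Fin.sum_univ_four] at h1
    have h2 : g 0 • H.h + g 1 • a + g 2 • b + g 3 • c = 0 := h1
    have e1 : g 1 = 0 := by
      have h3 := congrArg (bil H a) h2
      simp only [map_add, map_zsmul, smul_eq_mul, bil_h hH, hab, hac, map_zero,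
        bil_self hH] at h3
      have h4 : g 1 * H.disc a = 0 := by linear_combination h3
      exact (mul_eq_zero.1 h4).resolve_right ha0
    have e2 : g 2 = 0 := by
      have h3 := congrArg (bil H b) h2
      simp only [map_add, map_zsmul, smul_eq_mul, bil_h hH, bil_comm hH b a, hab, hbc, map_zero,
        bil_self hH] at h3
      have h4 : g 2 * H.disc b = 0 := by linear_combination h3
      exact (mul_eq_zero.1 h4).resolve_right hb0
    have e3 : g 3 = 0 := by
      have h3 := congrArg (bil H c) h2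
      simp only [map_add, map_zsmul, smul_eq_mul, bil_h hH, bil_comm hH c a, bil_comm hH c b,
        hac, hbc, map_zero, bil_self hH] at h3
      have h4 : g 3 * H.disc c = 0 := by linear_combination h3
      exact (mul_eq_zero.1 h4).resolve_right hc0
    have e0 : g 0 = 0 := by
      rw [e1, e2, e3] at h2
      have h3 := congrArg (H.ip H.h) h2
      simp only [zero_smul, add_zero, ip_smul_right, hH.h_self] at h3
      have h4 : H.ip H.h 0 = 0 := by simp [ip]
      rw [h4] at h3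
      omega
    intro i
    fin_cases i
    · exact e0
    · exact e1
    · exact e2
    · exact e3
  have h1 := hf.fintype_card_le_finrank
  rwa [Fintype.card_fin] at h1

/-- **The rank three.** -/
theorem hSq_of_three (hH : H.IsCohomology) (hr : H.rank = 3) {u T : Fin 23 → ℤ} {a : ℤ}
    (hu : H.IsHodge u) (hT : H.IsHodge T) (ha : a ≠ 0) (hua : H.disc u = 2 * a ^ 2)
    (hne : H.disc u * H.disc T - bil H u T ^ 2 ≠ 0)
    (hD : IsSquare (3 * (H.disc u * H.disc T - bil H u T ^ 2)) ∨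
      ∃ (p i : ℕ) (D' : ℤ), p.Prime ∧ ¬ (p : ℤ) ∣ 2 * a ∧ ¬ (p : ℤ) ∣ D' ∧
      3 * (H.disc u * H.disc T - bil H u T ^ 2) = (p : ℤ) ^ (2 * i + 1) * D')
    (hC : Congruences H) : HSq H := by
  set Δ := H.disc u * H.disc T - bil H u T ^ 2 with hΔ
  set k := 2 * a with hk
  have hk0 : k ≠ 0 := mul_ne_zero two_ne_zero ha
  have hk2 : 2 * H.disc u = k ^ 2 := by
    rw [hua, hk]
    ring
  set g₁ := k ^ 2 • T - (2 * bil H u T) • u with hg₁
  have hg1H : H.IsHodge g₁ := H.isHodge_sub (H.isHodge_smul _ hT) (H.isHodge_smul _ hu)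
  have hug : bil H u g₁ = 0 := by
    rw [hg₁, map_sub, map_zsmul, map_zsmul, bil_self hH, smul_eq_mul, smul_eq_mul]
    linear_combination (-bil H u T) * hk2
  have hG : H.disc g₁ = 2 * k ^ 2 * Δ := by
    rw [← bil_self hH g₁]
    conv_lhs => rw [hg₁]
    simp only [map_sub, LinearMap.sub_apply, map_zsmul, LinearMap.smul_apply, smul_eq_mul,
      bil_self hH, bil_comm hH T u]
    rw [hΔ]
    have h3 : k ^ 2 = 2 * H.disc u := hk2.symm
    rw [h3]
    ring
  have hG0 : H.disc g₁ ≠ 0 := by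
    rw [hG]
    exact mul_ne_zero (mul_ne_zero two_ne_zero (pow_ne_zero 2 hk0)) hne
  obtain ⟨v₀, hv₀, hloc⟩ := exists_local_all hH hC (n := 2 * k) (mul_ne_zero two_ne_zero hk0)
  have hdep : k ^ 2 * bil H g₁ g₁ * bil H v₀ v₀ =
      2 * bil H g₁ g₁ * bil H u v₀ ^ 2 + k ^ 2 * bil H g₁ v₀ ^ 2 := by
    by_contra hcon
    set w := (k ^ 2 * bil H g₁ g₁) • v₀ - (2 * bil H g₁ g₁ * bil H u v₀) • u -
      (k ^ 2 * bil H g₁ v₀) • g₁ with hw
    have hwH : H.IsHodge w := H.isHodge_sub (H.isHodge_sub (H.isHodge_smul _ hv₀)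
      (H.isHodge_smul _ hu)) (H.isHodge_smul _ hg1H)
    have e1 : bil H u w = 0 := by
      rw [hw]
      simp only [map_sub, map_zsmul, smul_eq_mul, hug, bil_self hH]
      linear_combination (-(H.disc g₁ * bil H u v₀)) * hk2
    have e2 : bil H g₁ w = 0 := by
      rw [hw]
      simp only [map_sub, map_zsmul, smul_eq_mul, bil_comm hH g₁ u, hug]
      ring
    have e3 : H.disc w = k ^ 2 * bil H g₁ g₁ * (k ^ 2 * bil H g₁ g₁ * bil H v₀ v₀ -
        (2 * bil H g₁ g₁ * bil H u v₀ ^ 2 + k ^ 2 * bil H g₁ v₀ ^ 2)) := by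
      rw [← bil_self hH w]
      have e4 : bil H w w = (k ^ 2 * bil H g₁ g₁) * bil H v₀ w -
          (2 * bil H g₁ g₁ * bil H u v₀) * bil H u w - (k ^ 2 * bil H g₁ v₀) * bil H g₁ w := by
        have e5 := congrArg (fun z => bil H z w) hw
        simp only [map_sub, LinearMap.sub_apply, map_zsmul, LinearMap.smul_apply,
          smul_eq_mul] at e5
        exact e5
      rw [e4, e1, e2]
      rw [hw]
      simp only [map_sub, map_zsmul, smul_eq_mul, bil_comm hH v₀ u, bil_comm hH v₀ g₁]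
      ring
    have hw0 : H.disc w ≠ 0 := by
      rw [e3]
      refine mul_ne_zero (mul_ne_zero (pow_ne_zero 2 hk0) ?_) (sub_ne_zero.2 hcon)
      rw [bil_self hH]
      exact hG0
    have h4 := four_le_rank hH hu hg1H hwH hug e1 e2 (by
      rw [hua]
      exact mul_ne_zero two_ne_zero (pow_ne_zero 2 ha)) hG0 hw0
    omega
  obtain ⟨x, y, m, h⟩ := core1 (bil H) (bil_comm hH) (u := u) (g₁ := g₁) (v₀ := v₀)
    (t := 3) hk0 three_ne_zero (by rw [bil_self hH]; exact hk2) hug (by rwa [bil_self hH])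
    hdep hloc (by
      rw [bil_self hH, hG]
      rcases hD with ⟨r, hr⟩ | ⟨p, i, D', hp, hpa, hpD, hDD⟩
      · exact Or.inl ⟨2 * k * r, by linear_combination (4 * k ^ 2) * hr⟩
      · right
        have hpZ : Prime (p : ℤ) := Nat.prime_iff_prime_int.1 hp
        have hp2 : ¬ (p : ℤ) ∣ 2 := fun h => hpa (h.mul_right a)
        refine ⟨p, i, (2 * k) ^ 2 * D', hp, ?_, ?_, by linear_combination (4 * k ^ 2) * hDD⟩
        · intro h
          exact (hpZ.dvd_or_dvd h).elim hp2 hpa
        · intro h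
          rcases hpZ.dvd_or_dvd h with h3 | h3
          · exact (hpZ.dvd_or_dvd (hpZ.dvd_of_dvd_pow h3)).elim hp2 hpa
          · exact hpD h3)
  rw [bil_self hH] at h
  obtain ⟨n, hn⟩ := value_of_sq (m := m) hH (v := v₀ + x • u + y • g₁) (by linear_combination h)
  exact hSq_of_value hH (H.isHodge_add (H.isHodge_add hv₀ (H.isHodge_smul _ hu))
    (H.isHodge_smul _ hg1H)) hn

end Pool.Agent.Helper56K9.GS
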