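import Pool.Agent.Helper56K9.GS.Rank3
import Pool.Agent.Helper56K9.GS.Core3

/-!
# The rank three, with the help of the prime number three
-/

set_option autoImplicit false

namespace Pool.Agent.Helper56K9.GS

open Pool.Agent.Y95.Q Pool.Agent.Y95.Q.H4 Pool.Agent.X328.CF Module

variable {X : CubicFourfold} {H : H4 X}

/-- the values of the form are congruent to products modulo `3` -/
theorem three_dvd_minor (H : H4 X) (x y z w : Fin 23 → ℤ) :
    (3 : ℤ) ∣ bil H x y * bil H z w - bil H x w * bil H z y := by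
  simp only [bil_apply]
  refine ⟨(3 * H.ip x y * H.ip z w - H.ip x y * (H.ip z H.h * H.ip w H.h) -
    (H.ip x H.h * H.ip y H.h) * H.ip z w) - (3 * H.ip x w * H.ip z y -
    H.ip x w * (H.ip z H.h * H.ip y H.h) - (H.ip x H.h * H.ip w H.h) * H.ip z y), ?_⟩
  ring

/-- **The rank three, with the help of the prime number three.** -/
theorem hSq_of_three' (hH : H.IsCohomology) (hr : H.rank < 4) {u T : Fin 23 → ℤ} {a : ℤ}
    (hu : H.IsHodge u) (hT : H.IsHodge T) (ha : a ≠ 0) (hua : H.disc u = 2 * a ^ 2)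
    (hne : H.disc u * H.disc T - bil H u T ^ 2 ≠ 0)
    (hD : (IsSquare (3 * (H.disc u * H.disc T - bil H u T ^ 2)) ∨
      ∃ (p i : ℕ) (D' : ℤ), p.Prime ∧ ¬ (p : ℤ) ∣ 2 * a ∧ ¬ (p : ℤ) ∣ D' ∧
      3 * (H.disc u * H.disc T - bil H u T ^ 2) = (p : ℤ) ^ (2 * i + 1) * D') ∨
      (¬ (3 : ℤ) ∣ a ∧ ∃ S e : ℤ, e % 3 = 2 ∧
        3 * (H.disc u * H.disc T - bil H u T ^ 2) = S ^ 2 * e))
    (hC : Congruences H) : HSq H := by
  set Δ := H.disc u * H.disc T - bil H u T ^ 2 with hΔ
  set k := 2 * a with hk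
  have hk0 : k ≠ 0 := mul_ne_zero two_ne_zero ha
  have hk2 : 2 * H.disc u = k ^ 2 := by
    rw [hua, hk]
    ring
  set g₁ := k ^ 2 • T - (2 * bil H u T) • u with hg₁
  have hg1H : H.IsHodge g₁ := H.isHodge_sub (H.isHodge_smul _ hT) (H.isHodge_smul _ hu)
  have hug : bil H u g₁ = 0 := by
    rw [hg₁, map_sub, map_zsmul, map_zsmul, bil_self hH, smul_eq_mul, smul_eq_mul]
    linear_combination (-bil H u T) * hk2
  have hG : H.disc g₁ = 2 * k ^ 2 * Δ := by
    rw [← bil_self hH g₁]
    conv_lhs => rw [hg₁]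
    simp only [map_sub, LinearMap.sub_apply, map_zsmul, LinearMap.smul_apply, smul_eq_mul,
      bil_self hH, bil_comm hH T u]
    rw [hΔ]
    have h3 : k ^ 2 = 2 * H.disc u := hk2.symm
    rw [h3]
    ring
  have hG0 : H.disc g₁ ≠ 0 := by
    rw [hG]
    exact mul_ne_zero (mul_ne_zero two_ne_zero (pow_ne_zero 2 hk0)) hne
  obtain ⟨v₀, hv₀, hloc⟩ := exists_local_all hH hC (n := 2 * k) (mul_ne_zero two_ne_zero hk0)
  have hdep : k ^ 2 * bil H g₁ g₁ * bil H v₀ v₀ =
      2 * bil H g₁ g₁ * bil H u v₀ ^ 2 + k ^ 2 * bil H g₁ v₀ ^ 2 := by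
    by_contra hcon
    set w := (k ^ 2 * bil H g₁ g₁) • v₀ - (2 * bil H g₁ g₁ * bil H u v₀) • u -
      (k ^ 2 * bil H g₁ v₀) • g₁ with hw
    have hwH : H.IsHodge w := H.isHodge_sub (H.isHodge_sub (H.isHodge_smul _ hv₀)
      (H.isHodge_smul _ hu)) (H.isHodge_smul _ hg1H)
    have e1 : bil H u w = 0 := by
      rw [hw]
      simp only [map_sub, map_zsmul, smul_eq_mul, hug, bil_self hH]
      linear_combination (-(H.disc g₁ * bil H u v₀)) * hk2
    have e2 : bil H g₁ w = 0 := by
      rw [hw]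
      simp only [map_sub, map_zsmul, smul_eq_mul, bil_comm hH g₁ u, hug]
      ring
    have e3 : H.disc w = k ^ 2 * bil H g₁ g₁ * (k ^ 2 * bil H g₁ g₁ * bil H v₀ v₀ -
        (2 * bil H g₁ g₁ * bil H u v₀ ^ 2 + k ^ 2 * bil H g₁ v₀ ^ 2)) := by
      rw [← bil_self hH w]
      have e4 : bil H w w = (k ^ 2 * bil H g₁ g₁) * bil H v₀ w -
          (2 * bil H g₁ g₁ * bil H u v₀) * bil H u w - (k ^ 2 * bil H g₁ v₀) * bil H g₁ w := by
        have e5 := congrArg (fun z => bil H z w) hw
        simp only [map_sub, LinearMap.sub_apply, map_zsmul, LinearMap.smul_apply,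
          smul_eq_mul] at e5
        exact e5
      rw [e4, e1, e2]
      rw [hw]
      simp only [map_sub, map_zsmul, smul_eq_mul, bil_comm hH v₀ u, bil_comm hH v₀ g₁]
      ring
    have hw0 : H.disc w ≠ 0 := by
      rw [e3]
      refine mul_ne_zero (mul_ne_zero (pow_ne_zero 2 hk0) ?_) (sub_ne_zero.2 hcon)
      rw [bil_self hH]
      exact hG0
    have h4 := four_le_rank hH hu hg1H hwH hug e1 e2 (by
      rw [hua]
      exact mul_ne_zero two_ne_zero (pow_ne_zero 2 ha)) hG0 hw0
    omega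
  have hfin : ∃ x y m : ℤ, 2 * bil H (v₀ + x • u + y • g₁) (v₀ + x • u + y • g₁) - m ^ 2 = 3 := by
    rcases hD with hD | ⟨h3a, S, e, he, hDe⟩
    · exact core1 (bil H) (bil_comm hH) (u := u) (g₁ := g₁) (v₀ := v₀)
        (t := 3) hk0 three_ne_zero (by rw [bil_self hH]; exact hk2) hug (by rwa [bil_self hH])
        hdep hloc (by
          rw [bil_self hH, hG]
          rcases hD with ⟨r, hr⟩ | ⟨p, i, D', hp, hpa, hpD, hDD⟩
          · exact Or.inl ⟨2 * k * r, by linear_combination (4 * k ^ 2) * hr⟩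
          · right
            have hpZ : Prime (p : ℤ) := Nat.prime_iff_prime_int.1 hp
            have hp2 : ¬ (p : ℤ) ∣ 2 := fun h => hpa (h.mul_right a)
            refine ⟨p, i, (2 * k) ^ 2 * D', hp, ?_, ?_, by linear_combination (4 * k ^ 2) * hDD⟩
            · intro h
              exact (hpZ.dvd_or_dvd h).elim hp2 hpa
            · intro h
              rcases hpZ.dvd_or_dvd h with h3 | h3
              · exact (hpZ.dvd_or_dvd (hpZ.dvd_of_dvd_pow h3)).elim hp2 hpa
              · exact hpD h3)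
    · have h3Z : Prime (3 : ℤ) := Int.prime_three
      have hΔ3 : (3 : ℤ) ∣ Δ := by
        have h1 := three_dvd_minor H u u T T
        rw [bil_self hH, bil_self hH, bil_comm hH T u] at h1
        rw [hΔ, pow_two]
        exact h1
      refine core3 (bil H) (bil_comm hH) (u := u) (g₁ := g₁) (v₀ := v₀)
        (t := 3) hk0 three_ne_zero (by rw [bil_self hH]; exact hk2) hug (by rwa [bil_self hH])
        hdep hloc ?_ ?_ ?_ ?_ (S := 2 * k * S) (e₀ := e) he ?_
      · intro h
        rw [hk] at h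
        rcases h3Z.dvd_or_dvd h with h | h
        · norm_num at h
        · exact h3a h
      · rw [bil_self hH, hG]
        exact hΔ3.mul_left _
      · have h1 : bil H g₁ v₀ = 2 * (bil H u u * bil H T v₀ - bil H u v₀ * bil H T u) := by
          rw [hg₁]
          simp only [map_sub, LinearMap.sub_apply, map_zsmul, LinearMap.smul_apply, smul_eq_mul]
          rw [bil_self hH u, bil_comm hH T u]
          linear_combination (-bil H T v₀) * hk2
        rw [h1]
        exact (three_dvd_minor H u u T v₀).mul_left _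
      · have h1 : k ^ 2 * 3 + 4 * bil H u v₀ ^ 2 - 2 * k ^ 2 * bil H v₀ v₀ =
            3 * k ^ 2 - 4 * (bil H u u * bil H v₀ v₀ - bil H u v₀ * bil H v₀ u) := by
          rw [bil_self hH u, bil_comm hH v₀ u]
          linear_combination (2 * bil H v₀ v₀) * hk2
        rw [h1]
        exact dvd_sub (dvd_mul_right _ _) ((three_dvd_minor H u u v₀ v₀).mul_left _)
      · rw [bil_self hH, hG]
        linear_combination (4 * k ^ 2) * hDe
  obtain ⟨x, y, m, h⟩ := hfin
  rw [bil_self hH] at h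
  obtain ⟨n, hn⟩ := value_of_sq (m := m) hH (v := v₀ + x • u + y • g₁) (by linear_combination h)
  exact hSq_of_value hH (H.isHodge_add (H.isHodge_add hv₀ (H.isHodge_smul _ hu))
    (H.isHodge_smul _ hg1H)) hn

end Pool.Agent.Helper56K9.GS
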